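import Pool.Agent.H77.Alt.Data

/-!
# MP_273d7a_al, model: the kernel check of the super-alternative laws
-/

namespace H77.Alt

open H85.FA

/-- `acc + s • (u * e_k)` -/
def mulRt (s : ℤ) (k : ℕ) : Vec → Vec → Vec
  | [], acc => acc
  | (m, x) :: u, acc => mulRt s k u (merge (s * x) (C m k) acc)

/-- `acc + s • (e_i * u)` -/
def mulLt (s : ℤ) (i : ℕ) : Vec → Vec → Vec
  | [], acc => acc
  | (m, x) :: u, acc => mulLt s i u (merge (s * x) (C i m) acc)

/-- `acc + s • (e_i, e_j, e_k)` -/
def asV (s : ℤ) (i j k : ℕ) (acc : Vec) : Vec :=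
  mulLt (-s) i (C j k) (mulRt s k (C i j) acc)

/-- `(-1)^(p q)` -/
def sg2 (p q : ℕ) : ℤ := bif Nat.beq (p * q % 2) 1 then -1 else 1

/-- the two super-alternative laws on a basis triple -/
def chk3 (i p j q k r : ℕ) : Bool :=
  allZero (asV 1 i j k (asV (sg2 p q) j i k [])) && allZero (asV 1 i j k (asV (sg2 q r) i k j []))

/-- all triples in the range `x^{≤ 8} a^{≤ 1}` -/
def checkTriples : Bool :=
  degs.all fun u => degs.all fun v =>
    bif Nat.ble (u.2.1 + v.2.1) 8 && Nat.ble (u.2.2 + v.2.2) 1 then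
      degs.all fun w =>
        bif Nat.ble (u.2.1 + v.2.1 + w.2.1) 8 && Nat.ble (u.2.2 + v.2.2 + w.2.2) 1 then
          chk3 u.1 u.2.1 v.1 v.2.1 w.1 w.2.1 else true
    else true

/-- degree in `x` -/
def dx (i : ℕ) : ℕ := (degs.getD i (0, 0, 0)).2.1

/-- degree in `a` -/
def da (i : ℕ) : ℕ := (degs.getD i (0, 0, 0)).2.2

/-- the table is graded -/
def checkPairs : Bool :=
  degs.all fun u => degs.all fun v => (C u.1 v.1).all fun w =>
    Nat.beq (dx w.1) (u.2.1 + v.2.1) && (Nat.beq (da w.1) (u.2.2 + v.2.2) &&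
      (Nat.ble (dx w.1) 8 && Nat.ble (da w.1) 1))

set_option maxRecDepth 100000 in
theorem checkPairs_ok : checkPairs = true := by decide +kernel

set_option maxRecDepth 100000 in
theorem checkTriples_ok : checkTriples = true := by decide +kernel

theorem degs_mem : ∀ i < 71, (i, dx i, da i) ∈ degs := by decide +kernel

end H77.Alt
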