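import Pool.Agent.H85.FA.Sound

/-!
# MP_273d7a_al, model: multiplication table

A 71-dimensional alternative superalgebra over `ℤ` (structure constants `12 * c`), a quotient of
the free alternative superalgebra on an odd generator `x = e_0` and an even generator `a = e_1`,
components `x^i a^j`, `i ≤ 8`, `j ≤ 1`.
-/

set_option linter.unusedVariables false

namespace H77.Alt

open H85.FA

/-- search tree with keys `128 * i + j` -/
inductive T3 where
  | nil : T3
  | node (key : ℕ) (v : Vec) (l r : T3) : T3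

/-- search -/
def T3.find (key : ℕ) : T3 → Vec
  | .nil => []
  | .node k v l r => bif Nat.blt key k then l.find key else
      bif Nat.blt k key then r.find key else v

def u0 : T3 :=
  .node 26 [(44, p 12)] (.node 13 [(24, p 12)] (.node 6 [(12, p 12)] (.node 3 [(6, p 12)] (.node
    1 [(2, p 12)] (.node 0 [(4, p 12)] .nil .nil) (.node 2 [(5, p 12)] .nil .nil)) (.node 5 [(11,
    p 12)] (.node 4 [(9, p 12)] .nil .nil) .nil)) (.node 10 [(20, p 12)] (.node 8 [(14, p 12)]
    (.node 7 [(13, p 12)] .nil .nil) (.node 9 [(19, p 12)] .nil .nil)) (.node 12 [(23, p 12)]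
    (.node 11 [(22, p 12)] .nil .nil) .nil))) (.node 20 [(37, p 12)] (.node 17 [(28, p 12)]
    (.node 15 [(26, p 12)] (.node 14 [(25, p 12)] .nil .nil) (.node 16 [(27, p 12)] .nil .nil))
    (.node 19 [(36, p 12)] (.node 18 [(29, p 12)] .nil .nil) .nil)) (.node 23 [(41, p 60), (42, n
    11), (44, p 33)] (.node 22 [(40, p 12)] (.node 21 [(38, p 12)] .nil .nil) .nil) (.node 25
    [(43, p 12)] (.node 24 [(42, p 12)] .nil .nil) .nil)))) (.node 39 [(50, p 12)] (.node 33
    [(45, p 12)] (.node 30 [(41, n 95), (44, n 5)] (.node 28 [(40, p 6), (41, n 23), (43, p 12),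
    (44, p 3)] (.node 27 [(40, p 30), (42, n 23), (43, p 12), (44, p 30)] .nil .nil) (.node 29
    [(40, p 72), (41, p 108), (42, n 59), (43, p 12), (44, p 96)] .nil .nil)) (.node 32 [(40, n
    19), (41, n 119), (42, p 12), (43, p 4), (44, n 0)] (.node 31 [(40, n 17), (41, p 48), (44, p
    6)] .nil .nil) .nil)) (.node 36 [(47, p 12)] (.node 35 [(40, p 98), (41, p 24), (42, n 199),
    (43, p 20), (44, p 240), (45, n 11)] (.node 34 [(40, n 11), (41, p 120), (42, p 12), (44, n
    8)] .nil .nil) .nil) (.node 38 [(49, p 12)] (.node 37 [(48, p 12)] .nil .nil) .nil))) (.node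
    47 [(57, p 12)] (.node 44 [(54, p 48)] (.node 42 [(54, p 48)] (.node 40 [(53, p 12)] .nil
    .nil) (.node 43 [(53, n 29), (54, n 167)] .nil .nil)) (.node 46 [(55, p 12)] (.node 45 [(54,
    n 191)] .nil .nil) .nil)) (.node 50 [(60, p 12)] (.node 49 [(59, p 12)] (.node 48 [(58, p
    12)] .nil .nil) .nil) (.node 52 [(62, p 12)] (.node 51 [(61, p 12)] .nil .nil) .nil))))

def u1 : T3 :=
  .node 132 [(6, n 11), (7, p 12), (8, p 12)] (.node 61 [(68, p 240), (69, p 24)] (.node 58 [(69,
    p 12)] (.node 56 [(67, p 12)] (.node 55 [(66, p 48)] .nil .nil) (.node 57 [(68, p 300), (69,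
    p 48)] .nil .nil)) (.node 60 [(68, n 11)] (.node 59 [(68, p 114), (69, p 24)] .nil .nil)
    .nil)) (.node 65 [(68, n 2), (69, n 5)] (.node 63 [(68, n 5), (69, n 11)] (.node 62 [(68, p
    105), (69, p 18)] .nil .nil) (.node 64 [(68, p 111), (69, p 6)] .nil .nil)) (.node 128 [(3, p
    12)] (.node 67 [(70, p 12)] .nil .nil) .nil))) (.node 165 [(40, p 126), (41, n 819), (42, p
    32), (43, n 3), (44, p 84), (45, p 24), (46, p 8)] (.node 148 [(24, n 11), (25, n 11), (26, n
    11), (27, n 11), (29, n 11), (30, p 24), (31, p 24), (32, n 11), (33, p 12), (34, p 12), (35,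
    p 12)] (.node 138 [(12, n 11), (14, p 12), (15, p 12), (16, n 11), (18, p 12)] (.node 137
    [(12, p 12), (15, n 11), (16, n 11), (17, p 12), (18, p 12)] .nil .nil) (.node 147 [(27, p
    12), (28, n 11), (29, n 23), (31, n 11), (32, p 12), (33, p 24), (35, p 12)] .nil .nil))
    (.node 164 [(40, p 232), (41, n 863), (42, n 47), (43, p 16), (44, p 236), (45, p 24), (46, n
    11)] (.node 149 [(23, n 11), (27, n 11), (29, n 11), (30, p 12), (31, p 24), (32, n 11), (33,
    p 12), (35, p 12)] .nil .nil) .nil)) (.node 175 [(53, n 81), (54, p 224), (55, p 28)] (.node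
    167 [(40, p 62), (41, n 943), (42, p 88), (43, n 11), (44, n 19), (45, p 24), (46, p 16)]
    (.node 166 [(40, p 156), (41, n 867), (42, p 32), (43, p 8), (44, p 108), (45, p 24), (46, p
    8)] .nil .nil) .nil) (.node 177 [(53, n 607), (54, n 1579), (55, p 80), (56, n 23)] (.node
    176 [(53, p 34), (54, p 1132), (55, p 32), (56, p 12)] .nil .nil) .nil)))

def u2 : T3 :=
  .node 178 [(53, n 461), (54, n 743), (55, p 72), (56, n 11)] (u1) (.node 197 [(70, n 275)]
    (.node 189 [(66, p 1050), (67, p 84)] (.node 186 [(66, p 1062), (67, p 84)] (.node 180 [(53,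
    p 694), (54, p 3700), (55, n 27), (56, p 48)] (.node 179 [(53, n 479), (54, n 947), (55, p
    72), (56, n 11)] .nil .nil) (.node 185 [(66, p 1176), (67, p 84)] .nil .nil)) (.node 188
    [(66, p 972), (67, p 84)] (.node 187 [(66, p 654), (67, p 48)] .nil .nil) .nil)) (.node 192
    [(66, p 1752), (67, p 156)] (.node 191 [(66, p 912), (67, p 84)] (.node 190 [(66, p 1926),
    (67, p 156)] .nil .nil) .nil) (.node 196 [(70, p 24)] (.node 193 [(66, p 1356), (67, p 120)]
    .nil .nil) .nil))) (.node 277 [(40, p 10), (41, p 72), (42, n 115), (43, p 4), (44, p 121)]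
    (.node 266 [(23, n 11), (24, n 11), (25, p 12), (27, n 23), (29, p 12), (30, p 24), (31, p
    12), (32, n 11), (34, p 12)] (.node 260 [(13, p 12), (15, n 11), (17, p 12)] (.node 256 [(7,
    p 12)] .nil .nil) (.node 265 [(23, n 11), (24, p 12), (25, p 12), (27, n 23), (28, p 12),
    (29, p 12), (31, p 12), (32, n 11)] .nil .nil)) (.node 276 [(40, p 16), (41, p 144), (42, n
    127), (43, n 7), (44, p 136)] (.node 275 [(40, p 14), (41, n 339), (42, n 119), (43, p 4),
    (44, p 135), (45, p 12), (46, n 3)] .nil .nil) .nil)) (.node 294 [(53, p 140), (54, p 224),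
    (55, p 16)] (.node 293 [(53, p 122), (54, p 224), (55, p 16)] (.node 292 [(53, p 178), (54, p
    196), (55, n 3)] .nil .nil) .nil) (.node 303 [(66, p 42)] (.node 295 [(53, p 84), (54, p
    204), (55, p 24)] .nil .nil) .nil))))

def u3 : T3 :=
  .node 434 [(66, p 876), (67, p 84)] (.node 388 [(14, p 12), (16, n 11), (18, p 12)] (.node 316
    [(70, p 84)] (.node 308 [(66, p 654), (67, p 48)] (.node 306 [(66, n 77), (67, n 11)] (.node
    305 [(66, n 245), (67, n 23)] .nil .nil) (.node 307 [(66, n 89), (67, n 11)] .nil .nil))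
    (.node 314 [(70, p 60)] (.node 313 [(70, n 11)] .nil .nil) .nil)) (.node 320 [(70, p 144)]
    (.node 318 [(70, p 120)] (.node 317 [(70, p 36)] .nil .nil) (.node 319 [(70, p 108)] .nil
    .nil)) (.node 384 [(8, p 12)] (.node 321 [(70, p 132)] .nil .nil) .nil))) (.node 421 [(53, p
    48), (54, p 1044), (55, p 24), (56, p 12)] (.node 404 [(40, p 78), (41, n 903), (42, p 32),
    (43, n 15), (44, p 42), (45, p 24), (46, p 8)] (.node 394 [(25, n 11), (29, n 11), (31, p
    12), (33, p 12), (35, p 12)] (.node 393 [(23, p 24), (24, n 11), (25, n 11), (26, n 11), (27,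
    p 24), (28, n 11), (29, n 23), (31, n 23), (32, p 24), (33, p 24), (35, p 12)] .nil .nil)
    (.node 403 [(40, p 194), (41, n 859), (42, n 19), (43, p 12), (44, p 169), (45, p 24), (46, n
    7)] .nil .nil)) (.node 420 [(53, n 67), (54, p 172), (55, p 20)] (.node 405 [(40, p 126),
    (41, n 963), (42, p 32), (43, n 3), (44, p 75), (45, p 24), (46, p 8)] .nil .nil) .nil))
    (.node 431 [(66, p 1164), (67, p 84)] (.node 423 [(53, n 453), (54, n 891), (55, p 64), (56,
    n 11)] (.node 422 [(53, n 611), (54, n 1739), (55, p 72), (56, n 23)] .nil .nil) .nil) (.node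
    433 [(66, p 612), (67, p 48)] (.node 432 [(66, p 1020), (67, p 84)] .nil .nil) .nil))))
    (.node 513 [(5, p 12), (6, p 12), (7, n 11)] (.node 445 [(70, n 23)] (.node 442 [(70, n 251)]
    (.node 436 [(66, p 1854), (67, p 156)] (.node 435 [(66, p 948), (67, p 84)] .nil .nil) (.node
    441 [(70, n 407)] .nil .nil)) (.node 444 [(70, n 23)] (.node 443 [(70, n 275)] .nil .nil)
    .nil)) (.node 448 [(70, p 96)] (.node 447 [(70, p 240)] (.node 446 [(70, n 167)] .nil .nil)
    .nil) (.node 512 [(10, p 12)] (.node 449 [(70, p 120)] .nil .nil) .nil))) (.node 520 [(25, p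
    12), (29, p 12), (33, n 11)] (.node 517 [(22, p 12), (26, p 12), (30, n 11)] (.node 515 [(12,
    p 12), (14, n 11), (16, p 12)] (.node 514 [(11, p 12), (13, n 11), (15, p 12)] .nil .nil)
    (.node 516 [(19, p 12), (20, p 12), (21, n 11)] .nil .nil)) (.node 519 [(24, p 12), (28, p
    12), (32, n 11)] (.node 518 [(23, p 12), (27, p 12), (31, n 11)] .nil .nil) .nil)) (.node 523
    [(40, p 12), (41, p 48), (44, p 6)] (.node 522 [(36, p 12), (37, n 11), (38, n 11), (39, p
    24)] (.node 521 [(36, p 12), (38, n 11), (39, p 12)] .nil .nil) .nil) (.node 525 [(40, n 21),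
    (41, p 252), (42, p 12), (43, n 3), (44, n 28)] (.node 524 [(40, n 5), (41, p 96), (42, n
    11), (44, p 18)] .nil .nil) .nil))))

def u4 : T3 :=
  .node 539 [(53, p 94), (54, p 292), (55, n 3)] (.node 533 [(48, n 23), (49, p 24), (50, p 12),
    (51, n 11), (52, p 12)] (.node 530 [(40, p 36), (41, n 111), (42, n 51), (43, n 27), (44, p
    72), (45, p 12), (46, n 3)] (.node 528 [(40, p 2), (41, n 279), (42, n 15), (43, n 7), (44, p
    25), (46, p 8)] (.node 527 [(40, n 11), (41, n 23)] .nil .nil) (.node 529 [(40, p 52), (41, n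
    223), (42, n 7), (43, p 20), (44, p 44), (45, n 11), (46, p 4)] .nil .nil)) (.node 532 [(47,
    p 24), (48, p 12), (49, n 35), (50, p 24), (52, n 11)] (.node 531 [(47, p 12), (50, p 12),
    (51, n 11)] .nil .nil) .nil)) (.node 536 [(53, n 23), (54, n 83)] (.node 535 [(53, n 11),
    (54, n 35)] (.node 534 [(53, p 24), (54, p 72)] .nil .nil) .nil) (.node 538 [(53, n 23), (54,
    n 83)] (.node 537 [(53, p 6)] .nil .nil) .nil))) (.node 546 [(53, p 30), (54, p 108)] (.node
    543 [(53, n 23), (54, n 107)] (.node 541 [(53, p 226), (54, p 700), (55, n 15)] (.node 540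
    [(53, p 50), (54, p 80), (55, n 7)] .nil .nil) (.node 542 [(53, n 35), (54, n 119)] .nil
    .nil)) (.node 545 [(53, p 28), (54, n 43), (55, p 8), (56, n 11)] (.node 544 [(53, n 93),
    (54, n 483), (55, n 7)] .nil .nil) .nil)) (.node 549 [(58, p 12), (62, n 11), (64, p 12)]
    (.node 548 [(57, p 12), (61, n 11), (63, p 12)] (.node 547 [(53, p 188), (54, p 620), (55, n
    31), (56, p 12)] .nil .nil) .nil) (.node 551 [(57, n 11), (58, p 24), (59, p 12), (60, n 23),
    (62, n 11), (63, p 12), (64, p 24), (65, n 11)] (.node 550 [(57, n 11), (58, n 35), (59, p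
    48), (61, n 11), (62, p 12), (65, p 12)] .nil .nil) .nil)))

def u5 : T3 :=
  .node 906 [(40, p 2), (41, n 107), (42, n 115), (43, n 3), (44, p 126)] (.node 804 [(66, n
    281), (67, n 23)] (.node 768 [(16, p 12)] (.node 690 [(70, p 12)] (.node 688 [(70, p 36)]
    (.node 687 [(70, p 24)] .nil .nil) (.node 689 [(70, p 24)] .nil .nil)) (.node 692 [(70, p
    24)] (.node 691 [(70, p 36)] .nil .nil) .nil)) (.node 787 [(53, n 59), (54, n 647), (55, p
    12), (56, n 11)] (.node 777 [(40, p 28), (41, n 363), (42, n 155), (43, n 11), (44, p 169),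
    (45, p 12), (46, n 3)] (.node 772 [(23, n 23), (24, p 12), (25, p 24), (26, p 12), (27, n
    35), (28, p 12), (29, p 24), (31, p 24), (32, n 23), (33, n 11)] .nil .nil) (.node 778 [(40,
    p 44), (41, n 39), (42, n 131), (43, n 7), (44, p 162), (46, n 3)] .nil .nil)) (.node 789
    [(53, p 106), (54, p 76), (55, p 8)] (.node 788 [(53, p 76), (54, p 16), (55, p 8)] .nil
    .nil) .nil))) (.node 818 [(70, p 240)] (.node 815 [(70, p 12)] (.node 806 [(66, n 623), (67,
    n 47)] (.node 805 [(66, n 167), (67, n 11)] .nil .nil) (.node 807 [(66, n 503), (67, n 35)]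
    .nil .nil)) (.node 817 [(70, p 96)] (.node 816 [(70, p 156)] .nil .nil) .nil)) (.node 896
    [(17, p 12)] (.node 820 [(70, p 228)] (.node 819 [(70, p 228)] .nil .nil) .nil) (.node 905
    [(40, p 6), (41, n 567), (42, n 131), (43, n 3), (44, p 146), (45, p 12), (46, n 3)] (.node
    900 [(23, n 11), (25, p 12), (27, n 23), (29, p 12), (30, p 12), (31, p 12), (32, n 11), (34,
    p 12)] .nil .nil) .nil)))) (.node 948 [(70, p 96)] (.node 935 [(66, n 245), (67, n 11)]
    (.node 932 [(66, n 113)] (.node 916 [(53, p 98), (54, p 176), (55, p 16)] (.node 915 [(53, p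
    168), (54, p 300)] .nil .nil) (.node 917 [(53, p 128), (54, p 272), (55, p 16)] .nil .nil))
    (.node 934 [(66, n 413), (67, n 23)] (.node 933 [(66, p 30), (67, p 12)] .nil .nil) .nil))
    (.node 945 [(70, p 48)] (.node 944 [(70, p 84)] (.node 943 [(70, p 12)] .nil .nil) .nil)
    (.node 947 [(70, p 84)] (.node 946 [(70, p 108)] .nil .nil) .nil))) (.node 1045 [(53, n 641),
    (54, n 1763), (55, p 72), (56, n 23)] (.node 1034 [(40, p 114), (41, n 907), (42, p 40), (43,
    n 19), (44, p 54), (45, p 24), (46, p 4)] (.node 1028 [(29, n 11), (33, p 12), (35, p 12)]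
    (.node 1024 [(18, p 12)] .nil .nil) (.node 1033 [(40, p 218), (41, n 839), (42, n 35), (43, n
    3), (44, p 193), (45, p 24), (46, n 11)] .nil .nil)) (.node 1044 [(53, p 6), (54, p 924),
    (55, p 24), (56, p 12)] (.node 1043 [(53, n 291), (54, n 519), (55, p 40), (56, n 11)] .nil
    .nil) .nil)) (.node 1062 [(66, p 312), (67, p 24)] (.node 1061 [(66, p 708), (67, p 60)]
    (.node 1060 [(66, p 870), (67, p 60)] .nil .nil) .nil) (.node 1071 [(70, n 479)] (.node 1063
    [(66, p 570), (67, p 60)] .nil .nil) .nil))))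

def u6 : T3 :=
  .node 1161 [(47, n 11), (48, n 35), (49, p 48), (51, n 11), (52, p 24)] (.node 1154 [(22, p
    12), (26, p 12), (28, p 12), (30, n 11), (34, n 11)] (.node 1076 [(70, n 95)] (.node 1074
    [(70, p 132)] (.node 1073 [(70, n 227)] .nil .nil) (.node 1075 [(70, p 120)] .nil .nil))
    (.node 1153 [(11, p 12), (13, n 11), (14, p 12), (15, p 12), (17, n 11)] (.node 1152 [(21, p
    12)] .nil .nil) .nil)) (.node 1158 [(40, p 118), (41, p 252), (42, n 35), (43, p 28), (44, p
    89), (45, n 11)] (.node 1156 [(36, p 12), (37, p 12), (38, n 11)] (.node 1155 [(23, p 36),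
    (24, n 11), (25, n 23), (26, n 11), (27, p 36), (28, n 11), (29, n 11), (31, n 23), (32, p
    24), (33, p 12)] .nil .nil) (.node 1157 [(40, n 11), (41, p 72), (42, p 12), (44, n 14)] .nil
    .nil)) (.node 1160 [(40, p 40), (41, p 148), (42, n 43), (43, p 20), (44, p 53), (45, n 11),
    (46, p 4)] (.node 1159 [(40, p 70), (41, p 400), (42, p 4), (43, p 20), (44, p 17), (45, n
    11), (46, p 4)] .nil .nil) .nil))) (.node 1168 [(53, n 185), (54, n 767), (55, p 24), (56, n
    11)] (.node 1165 [(53, p 4), (54, n 7), (55, n 3)] (.node 1163 [(53, p 12), (54, p 24)]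
    (.node 1162 [(47, p 12), (49, n 23), (50, p 12), (51, p 12)] .nil .nil) (.node 1164 [(53, n
    5), (54, n 11)] .nil .nil)) (.node 1167 [(53, n 5), (54, n 11)] (.node 1166 [(53, n 655),
    (54, n 2611), (55, p 56), (56, n 35)] .nil .nil) .nil)) (.node 1171 [(57, p 12), (58, n 11),
    (59, p 12), (60, p 12), (61, n 23), (62, p 12), (63, p 12), (65, n 11)] (.node 1170 [(53, p
    342), (54, p 1104), (55, n 23), (56, p 12)] (.node 1169 [(53, p 24), (54, p 48)] .nil .nil)
    .nil) (.node 1173 [(57, n 11), (58, n 83), (59, p 84), (60, p 24), (61, n 35), (62, p 36),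
    (64, n 11), (65, p 12)] (.node 1172 [(57, p 12), (58, n 35), (59, p 12), (60, p 36), (61, n
    11), (63, n 11), (64, n 11), (65, p 24)] .nil .nil) .nil)))

def u7 : T3 :=
  .node 1296 [(53, p 302), (54, p 1208), (55, n 19), (56, p 12)] (.node 1289 [(47, p 36), (48, p
    36), (49, n 59), (50, p 24), (52, n 23)] (.node 1286 [(40, n 75), (41, n 143), (42, n 11),
    (43, n 15), (44, n 13), (45, p 12)] (.node 1284 [(36, p 12), (38, n 11), (39, p 12)] (.node
    1283 [(23, n 11), (24, p 12), (25, p 12), (26, p 12), (27, n 11), (28, p 12), (29, p 12),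
    (31, p 12), (32, n 23), (33, n 11)] .nil .nil) (.node 1285 [(40, p 36), (41, p 72), (42, n
    11), (44, p 39)] .nil .nil)) (.node 1288 [(40, p 32), (41, n 39), (42, n 15), (43, p 16),
    (44, p 43), (45, n 11), (46, p 8)] (.node 1287 [(40, n 65), (41, n 51), (42, p 8), (43, n
    15), (44, n 41), (45, p 12), (46, n 3)] .nil .nil) .nil)) (.node 1293 [(53, n 39), (54, n
    87), (55, p 4)] (.node 1291 [(53, p 24), (54, p 72)] (.node 1290 [(47, p 24), (49, n 23),
    (50, p 36), (51, n 11), (52, n 11)] .nil .nil) (.node 1292 [(53, n 11)] .nil .nil)) (.node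
    1295 [(53, n 29), (54, n 71)] (.node 1294 [(53, p 632), (54, p 2636), (55, n 43), (56, p 36)]
    .nil .nil) .nil))) (.node 1303 [(66, n 35)] (.node 1300 [(57, p 12), (58, p 60), (59, n 47),
    (60, n 11), (61, p 12), (62, n 23), (63, p 12), (64, p 24), (65, n 23)] (.node 1298 [(53, n
    9), (54, n 123), (55, p 4), (56, n 11)] (.node 1297 [(53, p 28), (54, p 88), (55, n 3)] .nil
    .nil) (.node 1299 [(57, p 12), (58, p 12), (59, n 11), (62, n 11), (65, p 12)] .nil .nil))
    (.node 1302 [(66, p 36)] (.node 1301 [(58, p 24), (59, n 11), (60, n 11), (61, p 12), (62, n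
    11), (64, p 12)] .nil .nil) .nil)) (.node 1306 [(66, n 29)] (.node 1305 [(66, p 36)] (.node
    1304 [(66, n 11)] .nil .nil) .nil) (.node 1308 [(66, p 462), (67, p 36)] (.node 1307 [(66, p
    342), (67, p 24)] .nil .nil) .nil)))

def u8 : T3 :=
  .node 1812 [(66, n 239), (67, n 23)] (.node 1674 [(53, n 117), (54, n 483), (55, p 4)] (.node
    1573 [(70, p 264)] (.node 1556 [(66, p 96)] (.node 1546 [(53, n 23), (54, n 179)] (.node 1545
    [(53, n 29), (54, n 275)] .nil .nil) (.node 1555 [(66, p 84)] .nil .nil)) (.node 1572 [(70, p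
    192)] (.node 1557 [(66, p 102)] .nil .nil) .nil)) (.node 1664 [(32, p 12)] (.node 1575 [(70,
    p 216)] (.node 1574 [(70, p 240)] .nil .nil) .nil) (.node 1673 [(53, n 113), (54, n 551)]
    (.node 1668 [(40, n 41), (41, n 63), (42, n 3), (43, n 15), (44, n 17), (45, p 12), (46, n
    3)] .nil .nil) .nil))) (.node 1703 [(70, p 300)] (.node 1700 [(70, p 312)] (.node 1684 [(66,
    p 144)] (.node 1683 [(66, p 264), (67, p 12)] .nil .nil) (.node 1685 [(66, p 150)] .nil
    .nil)) (.node 1702 [(70, p 336)] (.node 1701 [(70, p 336)] .nil .nil) .nil)) (.node 1801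
    [(53, p 8), (54, n 495), (55, p 16), (56, n 11)] (.node 1796 [(40, p 58), (41, n 123), (42, n
    155), (43, p 12), (44, p 187), (46, n 3)] (.node 1792 [(33, p 12)] .nil .nil) .nil) (.node
    1811 [(66, n 137), (67, n 11)] (.node 1802 [(53, p 598), (54, p 2164), (55, n 15), (56, p
    24)] .nil .nil) .nil)))) (.node 1958 [(70, p 24)] (.node 1924 [(40, n 11), (41, n 59), (44, n
    8)] (.node 1830 [(70, n 143)] (.node 1828 [(70, n 119)] (.node 1813 [(66, n 683), (67, n 59)]
    .nil .nil) (.node 1829 [(70, n 11)] .nil .nil)) (.node 1920 [(34, p 12)] (.node 1831 [(70, p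
    24)] .nil .nil) .nil)) (.node 1939 [(66, n 23)] (.node 1930 [(53, p 36), (54, p 132)] (.node
    1929 [(53, p 30), (54, p 36)] .nil .nil) .nil) (.node 1957 [(70, p 36)] (.node 1940 [(66, n
    11)] .nil .nil) .nil))) (.node 2068 [(66, n 155), (67, n 11)] (.node 2057 [(53, p 28), (54, n
    343), (55, p 8), (56, n 11)] (.node 2048 [(23, n 23), (24, p 12), (25, p 24), (26, p 12),
    (27, n 23), (28, p 12), (29, p 24), (31, p 12), (32, n 23), (33, n 11)] (.node 1959 [(70, n
    11)] .nil .nil) (.node 2052 [(40, p 98), (41, n 123), (42, n 155), (43, p 4), (44, p 201),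
    (46, n 3)] .nil .nil)) (.node 2067 [(66, n 377), (67, n 35)] (.node 2058 [(53, p 164), (54, p
    428), (55, p 4)] .nil .nil) .nil)) (.node 2085 [(70, n 119)] (.node 2084 [(70, n 203)] (.node
    2069 [(66, n 587), (67, n 47)] .nil .nil) .nil) (.node 2087 [(70, n 11)] (.node 2086 [(70, n
    191)] .nil .nil) .nil))))

def u9 : T3 :=
  .node 1282 [(22, p 12), (24, n 11), (26, p 12), (28, n 11), (34, p 12)] (.node 1072 [(70, n
    179)] (u5) (.node 1174 [(66, p 12)] (u6) (.node 1187 [(66, p 72), (67, p 12)] (.node 1181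
    [(66, n 401), (67, n 47)] (.node 1178 [(66, n 17)] (.node 1176 [(66, n 17)] (.node 1175 [(66,
    n 5)] .nil .nil) (.node 1177 [(66, p 12)] .nil .nil)) (.node 1180 [(66, n 407), (67, n 35)]
    (.node 1179 [(66, n 209), (67, n 23)] .nil .nil) .nil)) (.node 1184 [(66, n 269), (67, n 11)]
    (.node 1183 [(66, n 29)] (.node 1182 [(66, n 23)] .nil .nil) .nil) (.node 1186 [(66, p 24)]
    (.node 1185 [(66, n 497), (67, n 59)] .nil .nil) .nil))) (.node 1195 [(70, n 71)] (.node 1191
    [(68, p 264), (69, p 12)] (.node 1189 [(68, p 132), (69, p 12)] (.node 1188 [(68, n 5), (69,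
    p 12)] .nil .nil) (.node 1190 [(68, p 132), (69, p 12)] .nil .nil)) (.node 1194 [(70, p 48)]
    (.node 1192 [(70, n 23)] .nil .nil) .nil)) (.node 1198 [(70, n 47)] (.node 1197 [(70, n 131)]
    (.node 1196 [(70, p 48)] .nil .nil) .nil) (.node 1281 [(11, p 12), (12, p 12), (13, n 11),
    (14, n 11), (17, p 12)] (.node 1280 [(19, p 12), (20, p 24), (21, n 23)] .nil .nil)
    .nil)))))) (.node 1540 [(40, n 5), (41, p 168), (42, n 35), (44, p 33)] (.node 1309 [(66, p
    642), (67, p 48)] (u7) (.node 1324 [(70, n 47)] (.node 1316 [(68, n 179)] (.node 1313 [(66, p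
    654), (67, p 36)] (.node 1311 [(66, n 17)] (.node 1310 [(66, n 47)] .nil .nil) (.node 1312
    [(66, p 54), (67, p 12)] .nil .nil)) (.node 1315 [(66, n 209), (67, p 12)] (.node 1314 [(66,
    p 54)] .nil .nil) .nil)) (.node 1319 [(68, n 203), (69, n 11)] (.node 1318 [(68, n 56), (69,
    p 6)] (.node 1317 [(68, n 56), (69, p 6)] .nil .nil) .nil) (.node 1323 [(70, p 132)] (.node
    1322 [(70, n 47)] .nil .nil) .nil))) (.node 1427 [(66, p 24)] (.node 1412 [(40, p 12), (41, p
    48), (44, p 6)] (.node 1326 [(70, n 11)] (.node 1325 [(70, p 120)] .nil .nil) (.node 1408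
    [(30, p 12)] .nil .nil)) (.node 1418 [(53, n 35), (54, n 119)] (.node 1417 [(53, n 23), (54,
    n 71)] .nil .nil) .nil)) (.node 1444 [(70, p 24)] (.node 1429 [(66, p 24)] (.node 1428 [(66,
    p 36)] .nil .nil) .nil) (.node 1536 [(31, p 12)] (.node 1447 [(70, p 24)] .nil .nil)
    .nil))))) (u8))

def u10 : T3 :=
  .node 2437 [(53, p 24), (54, p 108)] (.node 2314 [(53, n 427), (54, n 967), (55, p 44), (56, n
    11)] (.node 2212 [(70, n 299)] (.node 2195 [(66, n 209), (67, n 11)] (.node 2185 [(53, p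
    298), (54, p 772), (55, n 3)] (.node 2180 [(40, p 50), (41, n 263), (42, n 127), (43, p 8),
    (44, p 159)] .nil .nil) (.node 2186 [(53, p 228), (54, p 756), (55, p 12)] .nil .nil)) (.node
    2197 [(66, n 371), (67, n 23)] (.node 2196 [(66, p 48), (67, p 12)] .nil .nil) .nil)) (.node
    2304 [(35, p 12)] (.node 2214 [(70, n 311)] (.node 2213 [(70, n 239)] .nil .nil) (.node 2215
    [(70, n 203)] .nil .nil)) (.node 2313 [(53, n 71), (54, p 276), (55, p 12)] (.node 2308 [(40,
    p 186), (41, n 799), (42, n 19), (43, n 7), (44, p 150), (45, p 24), (46, n 7)] .nil .nil)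
    .nil))) (.node 2343 [(70, p 168)] (.node 2340 [(70, n 299)] (.node 2324 [(66, p 1050), (67, p
    96)] (.node 2323 [(66, p 876), (67, p 60)] .nil .nil) (.node 2325 [(66, p 642), (67, p 60)]
    .nil .nil)) (.node 2342 [(70, n 59)] (.node 2341 [(70, n 107)] .nil .nil) .nil)) (.node 2434
    [(40, p 22), (41, n 275), (42, n 23), (43, p 4), (44, p 41)] (.node 2433 [(22, p 12), (23, p
    24), (24, n 23), (27, p 12), (28, n 11), (31, n 11), (32, p 12)] (.node 2432 [(39, p 12)]
    .nil .nil) .nil) (.node 2436 [(47, p 36), (48, p 48), (49, n 71), (50, p 12), (51, p 12),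
    (52, n 23)] (.node 2435 [(40, p 32), (41, n 219), (42, n 51), (43, n 19), (44, p 88), (45, p
    12), (46, n 3)] .nil .nil) .nil)))) (.node 2450 [(66, n 89), (67, n 11)] (.node 2444 [(66, p
    30)] (.node 2441 [(57, p 12), (58, p 60), (59, n 47), (60, n 11), (61, p 12), (62, n 23),
    (63, p 12), (64, p 24), (65, n 23)] (.node 2439 [(53, p 150), (54, p 468)] (.node 2438 [(53,
    p 136), (54, p 316), (55, n 3)] .nil .nil) (.node 2440 [(53, p 210), (54, p 744), (55, n 23),
    (56, p 12)] .nil .nil)) (.node 2443 [(66, p 24)] (.node 2442 [(57, p 12), (58, p 48), (59, n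
    35), (60, n 23), (62, n 11), (63, p 36), (64, p 24), (65, n 35)] .nil .nil) .nil)) (.node
    2447 [(66, n 23)] (.node 2446 [(66, n 83), (67, p 12)] (.node 2445 [(66, p 114)] .nil .nil)
    .nil) (.node 2449 [(66, n 137), (67, p 12)] (.node 2448 [(66, n 209)] .nil .nil) .nil)))
    (.node 2457 [(70, n 71)] (.node 2454 [(70, n 23)] (.node 2452 [(68, n 173), (69, n 11)]
    (.node 2451 [(68, n 77), (69, p 12)] .nil .nil) (.node 2453 [(68, n 257), (69, n 11)] .nil
    .nil)) (.node 2456 [(70, p 48)] (.node 2455 [(70, p 24)] .nil .nil) .nil)) (.node 2460 [(70,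
    n 107)] (.node 2459 [(70, n 167)] (.node 2458 [(70, p 48)] .nil .nil) .nil) (.node 2462 [(70,
    p 72)] (.node 2461 [(70, n 287)] .nil .nil) .nil))))

def u11 : T3 :=
  .node 2582 [(70, n 71)] (.node 2569 [(57, p 36), (58, p 84), (59, n 71), (60, n 11), (61, n
    11), (62, n 35), (63, p 36), (64, p 24), (65, n 35)] (.node 2562 [(40, n 19), (41, n 107),
    (42, p 12), (43, n 7), (44, n 9)] (.node 2467 [(70, p 252)] (.node 2465 [(70, n 467)] (.node
    2464 [(70, p 168)] .nil .nil) (.node 2466 [(70, n 83)] .nil .nil)) (.node 2561 [(22, p 12),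
    (23, p 12), (25, n 11), (26, p 12), (27, p 12), (28, p 12), (30, n 23), (31, n 11), (32, p
    12), (34, n 11)] (.node 2560 [(36, p 24), (38, n 35), (39, p 24)] .nil .nil) .nil)) (.node
    2566 [(53, p 52), (54, p 340), (55, n 3)] (.node 2564 [(47, p 12), (48, n 11), (50, p 24),
    (51, n 11)] (.node 2563 [(40, p 106), (41, p 308), (42, n 27), (43, p 12), (44, p 68), (45, n
    11), (46, n 3)] .nil .nil) (.node 2565 [(53, p 60), (54, p 144)] .nil .nil)) (.node 2568
    [(53, n 441), (54, n 1815), (55, p 28), (56, n 23)] (.node 2567 [(53, p 104), (54, p 476),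
    (55, n 7)] .nil .nil) .nil))) (.node 2576 [(66, n 329), (67, n 11)] (.node 2573 [(66, p 114)]
    (.node 2571 [(66, p 36)] (.node 2570 [(58, p 36), (59, p 12), (60, n 23), (61, n 23), (62, n
    23), (63, p 24), (64, p 24), (65, n 11)] .nil .nil) (.node 2572 [(66, p 6)] .nil .nil))
    (.node 2575 [(66, n 47)] (.node 2574 [(66, p 384), (67, p 48)] .nil .nil) .nil)) (.node 2579
    [(68, n 395), (69, n 23)] (.node 2578 [(66, n 749), (67, n 71)] (.node 2577 [(66, n 551),
    (67, n 23)] .nil .nil) .nil) (.node 2581 [(68, n 104), (69, n 5)] (.node 2580 [(68, n 128),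
    (69, n 5)] .nil .nil) .nil)))) (.node 2595 [(70, p 108)] (.node 2589 [(70, n 395)] (.node
    2586 [(70, p 96)] (.node 2584 [(70, p 96)] (.node 2583 [(70, p 108)] .nil .nil) (.node 2585
    [(70, n 83)] .nil .nil)) (.node 2588 [(70, n 95)] (.node 2587 [(70, n 251)] .nil .nil) .nil))
    (.node 2592 [(70, p 300)] (.node 2591 [(70, p 108)] (.node 2590 [(70, p 48)] .nil .nil) .nil)
    (.node 2594 [(70, n 23)] (.node 2593 [(70, n 527)] .nil .nil) .nil))) (.node 2694 [(53, p
    82), (54, p 292), (55, n 3)] (.node 2691 [(40, p 142), (41, p 272), (42, n 51), (43, p 12),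
    (44, p 113), (45, n 11), (46, n 3)] (.node 2689 [(22, p 12), (23, p 24), (24, n 11), (25, n
    11), (27, p 12), (28, p 12), (30, n 11), (31, n 11), (32, p 12), (34, n 11)] (.node 2688
    [(36, p 12), (37, p 12), (38, n 23), (39, p 12)] .nil .nil) (.node 2690 [(40, n 19), (41, n
    155), (43, n 7), (44, n 3)] .nil .nil)) (.node 2693 [(53, p 48), (54, p 144)] (.node 2692
    [(47, p 12), (49, n 11), (50, p 12)] .nil .nil) .nil)) (.node 2697 [(57, p 36), (58, p 84),
    (59, n 83), (62, n 35), (63, p 24), (64, p 24), (65, n 35)] (.node 2696 [(53, n 435), (54, n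
    1815), (55, p 28), (56, n 23)] (.node 2695 [(53, p 134), (54, p 464), (55, n 7)] .nil .nil)
    .nil) (.node 2699 [(66, p 24)] (.node 2698 [(57, p 12), (58, p 12), (61, n 23), (62, n 11),
    (63, p 24), (64, p 12), (65, n 11)] .nil .nil) .nil))))

def u12 : T3 :=
  .node 2826 [(66, n 23)] (.node 2714 [(70, p 96)] (.node 2707 [(68, n 107)] (.node 2704 [(66, n
    329), (67, n 11)] (.node 2702 [(66, p 360), (67, p 48)] (.node 2701 [(66, p 108)] .nil .nil)
    (.node 2703 [(66, n 35)] .nil .nil)) (.node 2706 [(66, n 737), (67, n 71)] (.node 2705 [(66,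
    n 569), (67, n 23)] .nil .nil) .nil)) (.node 2711 [(70, p 108)] (.node 2709 [(68, n 80), (69,
    n 5)] (.node 2708 [(68, n 68), (69, n 5)] .nil .nil) (.node 2710 [(70, n 47)] .nil .nil))
    (.node 2713 [(70, n 143)] (.node 2712 [(70, p 96)] .nil .nil) .nil))) (.node 2721 [(70, n
    539)] (.node 2718 [(70, p 48)] (.node 2716 [(70, n 143)] (.node 2715 [(70, n 251)] .nil .nil)
    (.node 2717 [(70, n 311)] .nil .nil)) (.node 2720 [(70, p 240)] (.node 2719 [(70, p 72)] .nil
    .nil) .nil)) (.node 2816 [(41, n 47)] (.node 2723 [(70, p 216)] (.node 2722 [(70, n 47)] .nil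
    .nil) .nil) (.node 2825 [(66, n 11)] (.node 2820 [(53, p 12), (54, p 24)] .nil .nil) .nil))))
    (.node 3082 [(66, p 36)] (.node 2963 [(70, p 48)] (.node 2948 [(53, n 5), (54, p 24)] (.node
    2836 [(70, p 24)] (.node 2835 [(70, n 23)] .nil .nil) (.node 2944 [(40, n 23), (41, p 84),
    (44, n 8)] .nil .nil)) (.node 2954 [(66, n 5)] (.node 2953 [(66, p 6)] .nil .nil) .nil))
    (.node 3072 [(40, n 41), (41, p 132), (42, p 12), (44, n 29)] (.node 2965 [(70, n 11)] (.node
    2964 [(70, n 95)] .nil .nil) .nil) (.node 3081 [(66, p 12)] (.node 3076 [(53, n 17), (54, n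
    59)] .nil .nil) .nil))) (.node 3210 [(66, p 462), (67, p 36)] (.node 3200 [(46, p 12)] (.node
    3092 [(70, n 71)] (.node 3091 [(70, p 72)] .nil .nil) (.node 3093 [(70, n 23)] .nil .nil))
    (.node 3209 [(66, p 420), (67, p 36)] (.node 3204 [(53, p 654), (54, p 2592), (55, n 47),
    (56, p 36)] .nil .nil) .nil)) (.node 3328 [(40, n 23), (41, p 96), (42, p 12), (44, n 20)]
    (.node 3221 [(70, p 48)] (.node 3220 [(70, p 120)] .nil .nil) .nil) (.node 3337 [(66, p 12)]
    (.node 3332 [(53, n 17), (54, n 23)] .nil .nil) .nil))))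

def u13 : T3 :=
  .node 3844 [(53, n 23), (54, n 71)] (.node 3593 [(66, p 120), (67, p 12)] (.node 3466 [(66, n
    371), (67, n 23)] (.node 3456 [(40, p 84), (41, p 80), (42, n 51), (43, p 8), (44, p 84),
    (45, n 11), (46, p 8)] (.node 3348 [(70, n 71)] (.node 3347 [(70, p 36)] .nil .nil) (.node
    3349 [(70, n 23)] .nil .nil)) (.node 3465 [(66, n 59)] (.node 3460 [(53, p 296), (54, p
    1040), (55, n 19), (56, p 12)] .nil .nil) .nil)) (.node 3477 [(70, p 24)] (.node 3476 [(70, p
    156)] (.node 3475 [(70, n 155)] .nil .nil) .nil) (.node 3588 [(53, p 8), (54, p 20), (55, p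
    4)] (.node 3584 [(40, p 74), (41, p 136), (42, n 19), (43, p 12), (44, p 40), (45, n 11),
    (46, p 4)] .nil .nil) .nil))) (.node 3721 [(66, n 359), (67, n 23)] (.node 3605 [(70, p 24)]
    (.node 3603 [(70, n 83)] (.node 3594 [(66, n 287), (67, n 23)] .nil .nil) (.node 3604 [(70, p
    132)] .nil .nil)) (.node 3716 [(53, n 29), (54, n 575), (55, p 12), (56, n 11)] (.node 3712
    [(40, p 62), (41, n 195), (42, n 191), (43, n 19), (44, p 216), (46, n 3)] .nil .nil) .nil))
    (.node 3732 [(70, p 216)] (.node 3731 [(70, n 83)] (.node 3722 [(66, n 1007), (67, n 71)]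
    .nil .nil) .nil) (.node 3840 [(40, p 12), (41, p 96), (44, p 12)] (.node 3733 [(70, p 96)]
    .nil .nil) .nil)))) (.node 4105 [(66, p 390), (67, p 12)] (.node 3978 [(66, p 114)] (.node
    3968 [(40, n 11), (41, p 204), (42, n 35), (44, p 18)] (.node 3850 [(66, p 48)] (.node 3849
    [(66, p 36)] .nil .nil) (.node 3860 [(70, p 24)] .nil .nil)) (.node 3977 [(66, p 120)] (.node
    3972 [(53, n 29), (54, n 239)] .nil .nil) .nil)) (.node 3989 [(70, p 228)] (.node 3988 [(70,
    p 168)] (.node 3987 [(70, p 240)] .nil .nil) .nil) (.node 4100 [(53, n 129), (54, n 555),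
    (55, p 4)] (.node 4096 [(40, n 63), (41, p 188), (42, n 3), (43, n 19), (44, n 46), (45, p
    12), (46, n 3)] .nil .nil) .nil))) (.node 4233 [(66, p 210), (67, p 36)] (.node 4117 [(70, p
    312)] (.node 4115 [(70, p 372)] (.node 4106 [(66, p 282)] .nil .nil) (.node 4116 [(70, p
    264)] .nil .nil)) (.node 4228 [(53, p 634), (54, p 2140), (55, n 27), (56, p 24)] (.node 4224
    [(40, p 58), (41, n 123), (42, n 155), (43, p 12), (44, p 187), (45, n 11), (46, p 8)] .nil
    .nil) .nil)) (.node 4244 [(70, p 132)] (.node 4243 [(70, n 107)] (.node 4234 [(66, n 311),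
    (67, n 11)] .nil .nil) .nil) (.node 4352 [(40, n 23), (41, n 83), (44, n 20)] (.node 4245
    [(70, n 35)] .nil .nil) .nil))))

def u14 : T3 :=
  .node 4624 [(70, p 120)] (.node 4610 [(53, p 22), (54, n 91), (55, n 3)] (.node 4489 [(66, p
    540), (67, p 36)] (.node 4372 [(70, n 35)] (.node 4362 [(66, n 29)] (.node 4361 [(66, n 41)]
    .nil .nil) (.node 4371 [(70, p 36)] .nil .nil)) (.node 4484 [(53, n 307), (54, n 547), (55, p
    32), (56, n 11)] (.node 4480 [(40, p 150), (41, n 1019), (42, n 11), (43, n 47), (44, p 126),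
    (45, p 36), (46, n 11)] .nil .nil) .nil)) (.node 4501 [(70, n 23)] (.node 4499 [(70, n 443)]
    (.node 4490 [(66, p 294), (67, p 36)] .nil .nil) (.node 4500 [(70, p 12)] .nil .nil)) (.node
    4609 [(40, n 3), (41, n 19), (42, n 31), (44, p 19), (46, p 4)] (.node 4608 [(51, p 12)] .nil
    .nil) .nil))) (.node 4617 [(68, p 210), (69, p 24)] (.node 4614 [(66, p 24), (67, n 11)]
    (.node 4612 [(57, p 36), (58, p 60), (59, n 83), (60, p 12), (61, p 24), (62, n 35), (63, n
    11), (65, p 12)] (.node 4611 [(53, p 306), (54, p 924), (55, n 23), (56, p 12)] .nil .nil)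
    (.node 4613 [(66, n 5)] .nil .nil)) (.node 4616 [(66, p 120), (67, p 12)] (.node 4615 [(66, p
    54), (67, n 11)] .nil .nil) .nil)) (.node 4620 [(70, n 47)] (.node 4619 [(70, p 24)] (.node
    4618 [(68, p 564), (69, p 36)] .nil .nil) .nil) (.node 4623 [(70, n 35)] (.node 4621 [(70, n
    59)] .nil .nil) .nil)))) (.node 4746 [(68, n 101), (69, n 11)] (.node 4740 [(57, p 24), (58,
    p 36), (59, n 47), (60, p 12), (62, n 11), (63, p 12), (64, p 12), (65, n 23)] (.node 4737
    [(40, p 10), (41, n 143), (42, n 35), (43, p 4), (44, p 50)] (.node 4626 [(70, p 132)] (.node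
    4625 [(70, p 84)] .nil .nil) (.node 4736 [(52, p 12)] .nil .nil)) (.node 4739 [(53, p 118),
    (54, p 304), (55, n 3)] (.node 4738 [(53, p 24), (54, p 168)] .nil .nil) .nil)) (.node 4743
    [(66, p 90)] (.node 4742 [(66, p 48)] (.node 4741 [(66, p 36)] .nil .nil) .nil) (.node 4745
    [(68, p 87), (69, p 18)] (.node 4744 [(66, p 12), (67, p 12)] .nil .nil) .nil))) (.node 4753
    [(70, n 143)] (.node 4750 [(70, n 95)] (.node 4748 [(70, p 96)] (.node 4747 [(70, n 23)] .nil
    .nil) (.node 4749 [(70, p 72)] .nil .nil)) (.node 4752 [(70, n 179)] (.node 4751 [(70, p 72)]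
    .nil .nil) .nil)) (.node 4865 [(40, p 28), (41, n 191), (42, n 59), (43, p 4), (44, p 74)]
    (.node 4864 [(47, p 12), (48, p 36), (49, n 35), (51, p 12), (52, n 11)] (.node 4754 [(70, n
    191)] .nil .nil) .nil) (.node 4867 [(53, p 142), (54, p 292), (55, n 3)] (.node 4866 [(53, p
    12), (54, p 48)] .nil .nil) .nil))))

def u15 : T3 :=
  .node 5004 [(70, p 72)] (.node 4882 [(70, n 107)] (.node 4876 [(70, p 12)] (.node 4872 [(66, p
    6), (67, p 12)] (.node 4870 [(66, p 102)] (.node 4869 [(66, p 12)] .nil .nil) (.node 4871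
    [(66, p 144)] .nil .nil)) (.node 4874 [(68, p 66)] (.node 4873 [(68, p 219), (69, p 30)] .nil
    .nil) .nil)) (.node 4879 [(70, p 24)] (.node 4878 [(70, n 59)] (.node 4877 [(70, p 24)] .nil
    .nil) .nil) (.node 4881 [(70, n 71)] (.node 4880 [(70, n 83)] .nil .nil) .nil))) (.node 4998
    [(66, p 126), (67, p 12)] (.node 4995 [(53, n 87), (54, n 375), (55, p 16), (56, n 11)]
    (.node 4993 [(40, p 60), (41, n 279), (42, n 51), (43, p 8), (44, p 108), (46, n 3)] (.node
    4992 [(47, p 36), (48, p 48), (49, n 71), (50, p 24), (52, n 23)] .nil .nil) (.node 4994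
    [(53, p 14), (54, p 212), (55, p 4)] .nil .nil)) (.node 4997 [(66, p 54)] (.node 4996 [(57, p
    12), (58, p 48), (59, n 35), (60, n 11), (62, n 11), (63, p 24), (64, p 24), (65, n 35)] .nil
    .nil) .nil)) (.node 5001 [(68, n 179)] (.node 5000 [(66, n 89), (67, p 12)] (.node 4999 [(66,
    p 210), (67, p 12)] .nil .nil) .nil) (.node 5003 [(70, n 47)] (.node 5002 [(68, n 647), (69,
    n 47)] .nil .nil) .nil)))) (.node 5257 [(70, p 12)] (.node 5120 [(53, n 11), (54, n 71)]
    (.node 5008 [(70, n 287)] (.node 5006 [(70, n 59)] (.node 5005 [(70, p 108)] .nil .nil)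
    (.node 5007 [(70, p 84)] .nil .nil)) (.node 5010 [(70, n 431)] (.node 5009 [(70, n 179)] .nil
    .nil) .nil)) (.node 5130 [(70, p 72)] (.node 5129 [(70, p 24)] (.node 5124 [(66, p 24)] .nil
    .nil) .nil) (.node 5252 [(66, p 6)] (.node 5248 [(53, n 5), (54, n 23)] .nil .nil) .nil)))
    (.node 5508 [(66, p 456), (67, p 36)] (.node 5385 [(70, n 47)] (.node 5376 [(53, n 17), (54,
    p 60)] (.node 5258 [(70, p 12)] .nil .nil) (.node 5380 [(66, n 23)] .nil .nil)) (.node 5504
    [(53, n 35), (54, n 167), (55, p 12)] (.node 5386 [(70, n 95)] .nil .nil) .nil)) (.node 5632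
    [(54, p 96)] (.node 5514 [(70, p 120)] (.node 5513 [(70, p 108)] .nil .nil) .nil) (.node 5641
    [(70, n 47)] (.node 5636 [(66, n 23)] .nil .nil) .nil))))

def u16 : T3 :=
  .node 6273 [(53, p 14), (54, n 159), (55, n 7)] (.node 6021 [(70, n 23)] (.node 5897 [(70, n
    71)] (.node 5770 [(70, p 552)] (.node 5764 [(66, p 1080), (67, p 72)] (.node 5760 [(56, p
    12)] .nil .nil) (.node 5769 [(70, p 444)] .nil .nil)) (.node 5892 [(66, p 426), (67, p 36)]
    (.node 5888 [(53, p 690), (54, p 2760), (55, n 47), (56, p 36)] .nil .nil) .nil)) (.node 6018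
    [(66, n 149)] (.node 6016 [(63, p 12)] (.node 5898 [(70, p 36)] .nil .nil) (.node 6017 [(53,
    p 10), (54, n 103), (55, n 3)] .nil .nil)) (.node 6020 [(68, p 318), (69, p 36)] (.node 6019
    [(66, n 83), (67, n 11)] .nil .nil) .nil))) (.node 6147 [(66, n 209), (67, n 23)] (.node 6144
    [(64, p 12)] (.node 6023 [(70, n 323)] (.node 6022 [(70, n 227)] .nil .nil) (.node 6024 [(70,
    p 192)] .nil .nil)) (.node 6146 [(66, n 149)] (.node 6145 [(53, p 14), (54, n 87), (55, n 7)]
    .nil .nil) .nil)) (.node 6151 [(70, n 323)] (.node 6150 [(70, n 275)] (.node 6148 [(68, p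
    12), (69, p 12)] .nil .nil) .nil) (.node 6272 [(65, p 12)] (.node 6152 [(70, p 84)] .nil
    .nil) .nil)))) (.node 6406 [(70, n 239)] (.node 6400 [(57, p 24), (58, p 72), (59, n 59),
    (60, n 11), (62, n 35), (63, p 12), (64, p 24), (65, n 11)] (.node 6278 [(70, n 287)] (.node
    6275 [(66, n 173), (67, n 23)] (.node 6274 [(66, n 155)] .nil .nil) (.node 6276 [(68, p 186),
    (69, p 24)] .nil .nil)) (.node 6280 [(70, p 180)] (.node 6279 [(70, n 359)] .nil .nil) .nil))
    (.node 6403 [(66, n 329), (67, n 35)] (.node 6402 [(66, n 137)] (.node 6401 [(53, p 48), (54,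
    n 35), (55, n 11)] .nil .nil) .nil) (.node 6405 [(70, n 23)] (.node 6404 [(68, n 227), (69, n
    11)] .nil .nil) .nil))) (.node 6532 [(68, p 270), (69, p 24)] (.node 6529 [(53, p 36), (54, n
    143), (55, n 11)] (.node 6408 [(70, p 48)] (.node 6407 [(70, n 299)] .nil .nil) (.node 6528
    [(57, p 36), (58, p 60), (59, n 83), (60, p 12), (61, p 12), (62, n 35), (65, p 12)] .nil
    .nil)) (.node 6531 [(66, n 269), (67, n 35)] (.node 6530 [(66, n 161)] .nil .nil) .nil))
    (.node 6536 [(70, p 180)] (.node 6535 [(70, n 371)] (.node 6534 [(70, n 263)] .nil .nil)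
    .nil) (.node 6657 [(53, p 38), (54, p 80), (55, n 7)] (.node 6656 [(57, p 24), (58, p 36),
    (59, n 47), (60, p 12), (62, n 23), (63, p 12), (64, p 24), (65, n 23)] .nil .nil) .nil))))

def u17 : T3 :=
  .node 7680 [(68, n 173), (69, n 11)] (.node 7172 [(70, p 564)] (.node 6788 [(70, p 24)] (.node
    6662 [(70, n 179)] (.node 6660 [(68, n 38), (69, p 6)] (.node 6659 [(66, n 263), (67, n 23)]
    .nil .nil) (.node 6661 [(70, n 23)] .nil .nil)) (.node 6664 [(70, n 23)] (.node 6663 [(70, n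
    251)] .nil .nil) .nil)) (.node 7040 [(66, p 444), (67, p 36)] (.node 6916 [(70, n 11)] (.node
    6912 [(66, n 5)] .nil .nil) .nil) (.node 7168 [(66, p 1176), (67, p 60)] (.node 7044 [(70, p
    84)] .nil .nil) .nil))) (.node 7426 [(70, n 23)] (.node 7299 [(70, p 60)] (.node 7297 [(66, n
    17)] (.node 7296 [(68, p 534), (69, p 36)] .nil .nil) (.node 7298 [(70, n 23)] .nil .nil))
    (.node 7425 [(66, n 59)] (.node 7424 [(68, p 42)] .nil .nil) .nil)) (.node 7553 [(66, n 59)]
    (.node 7552 [(68, p 54)] (.node 7427 [(70, n 95)] .nil .nil) .nil) (.node 7555 [(70, n 71)]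
    (.node 7554 [(70, n 47)] .nil .nil) .nil)))) (.node 8065 [(66, n 137)] (.node 7811 [(70, n
    179)] (.node 7808 [(68, p 18)] (.node 7682 [(70, n 23)] (.node 7681 [(66, n 95)] .nil .nil)
    (.node 7683 [(70, n 191)] .nil .nil)) (.node 7810 [(70, n 47)] (.node 7809 [(66, n 113)] .nil
    .nil) .nil)) (.node 7938 [(70, p 24)] (.node 7937 [(66, n 65)] (.node 7936 [(68, p 381), (69,
    p 30)] .nil .nil) .nil) (.node 8064 [(68, n 221), (69, n 11)] (.node 7939 [(70, n 95)] .nil
    .nil) .nil))) (.node 8321 [(66, n 113)] (.node 8194 [(70, p 24)] (.node 8192 [(68, p 81),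
    (69, p 18)] (.node 8067 [(70, n 299)] .nil .nil) (.node 8193 [(66, n 107)] .nil .nil)) (.node
    8320 [(68, p 129), (69, p 18)] (.node 8195 [(70, n 203)] .nil .nil) .nil)) (.node 8448 [(70,
    p 24)] (.node 8323 [(70, n 239)] (.node 8322 [(70, p 48)] .nil .nil) .nil) (.node 8833 [(70,
    p 24)] (.node 8576 [(70, n 287)] .nil .nil) .nil))))

def u18 : T3 :=
  .node 2176 [(23, n 11), (25, p 12), (27, n 23), (28, p 12), (29, p 12), (30, p 12), (31, p 12),
    (32, n 23), (34, p 12)] (.node 679 [(66, p 12)] (.node 304 [(66, p 204), (67, p 12)] (.node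
    53 [(66, p 12)] (u0) (u2)) (.node 526 [(43, p 12), (45, n 11), (46, p 12)] (u3) (.node 552
    [(66, p 24)] (u4) (.node 565 [(70, n 23)] (.node 559 [(68, n 239)] (.node 556 [(66, n 23)]
    (.node 554 [(66, n 5)] (.node 553 [(66, p 6)] .nil .nil) (.node 555 [(66, p 42)] .nil .nil))
    (.node 558 [(66, n 5)] (.node 557 [(66, p 96), (67, n 11)] .nil .nil) .nil)) (.node 562 [(68,
    p 108), (69, p 12)] (.node 561 [(68, p 57), (69, p 18)] (.node 560 [(68, p 69), (69, p 18)]
    .nil .nil) .nil) (.node 564 [(68, n 131)] (.node 563 [(68, p 234), (69, p 24)] .nil .nil)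
    .nil))) (.node 659 [(53, n 5), (54, n 83)] (.node 644 [(26, n 11), (30, p 12), (34, p 12)]
    (.node 568 [(70, p 360)] (.node 567 [(70, n 59)] .nil .nil) (.node 640 [(15, p 12)] .nil
    .nil)) (.node 650 [(40, n 11), (41, n 107), (44, n 20)] (.node 649 [(40, p 12), (41, n 35),
    (42, n 11), (44, p 24)] .nil .nil) .nil)) (.node 676 [(66, p 6)] (.node 661 [(53, n 11), (54,
    p 12)] (.node 660 [(53, p 12), (54, p 96)] .nil .nil) .nil) (.node 678 [(66, p 36)] (.node
    677 [(66, p 12)] .nil .nil) .nil))))))) (u9)) (.node 4356 [(53, p 24), (54, p 48)] (.node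
    2700 [(66, p 30)] (.node 2463 [(70, p 12)] (u10) (u11)) (.node 3338 [(66, p 18)] (u12)
    (u13))) (.node 5642 [(70, n 95)] (.node 4868 [(57, p 24), (58, p 60), (59, n 71), (61, p 24),
    (62, n 23), (64, p 12), (65, n 11)] (u14) (u15)) (.node 6658 [(66, n 137)] (u16) (u17))))

/-- the table -/
def tab : T3 := u18

/-- the product `e_i e_j` -/
def C (i j : ℕ) : Vec := bif Nat.blt i 71 && Nat.blt j 71 then tab.find (128 * i + j) else []

/-- index, degree in `x`, degree in `a` -/
def degs : List (ℕ × ℕ × ℕ) :=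
  [(0, 1, 0), (1, 0, 1), (2, 1, 1), (3, 1, 1), (4, 2, 0), (5, 2, 1), (6, 2, 1), (7, 2, 1), (8, 2,
    1), (9, 3, 0), (10, 3, 0), (11, 3, 1), (12, 3, 1), (13, 3, 1), (14, 3, 1), (15, 3, 1), (16,
    3, 1), (17, 3, 1), (18, 3, 1), (19, 4, 0), (20, 4, 0), (21, 4, 0), (22, 4, 1), (23, 4, 1),
    (24, 4, 1), (25, 4, 1), (26, 4, 1), (27, 4, 1), (28, 4, 1), (29, 4, 1), (30, 4, 1), (31, 4,
    1), (32, 4, 1), (33, 4, 1), (34, 4, 1), (35, 4, 1), (36, 5, 0), (37, 5, 0), (38, 5, 0), (39,
    5, 0), (40, 5, 1), (41, 5, 1), (42, 5, 1), (43, 5, 1), (44, 5, 1), (45, 5, 1), (46, 5, 1),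
    (47, 6, 0), (48, 6, 0), (49, 6, 0), (50, 6, 0), (51, 6, 0), (52, 6, 0), (53, 6, 1), (54, 6,
    1), (55, 6, 1), (56, 6, 1), (57, 7, 0), (58, 7, 0), (59, 7, 0), (60, 7, 0), (61, 7, 0), (62,
    7, 0), (63, 7, 0), (64, 7, 0), (65, 7, 0), (66, 7, 1), (67, 7, 1), (68, 8, 0), (69, 8, 0),
    (70, 8, 1)]

end H77.Alt
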