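import Pool.Agent.H77.Alt.Model

/-!
# MP_273d7a_al, model: the Grassmann envelope

`E0 = ⊕_S θ_S ⊗ W`, `S ⊆ {0,…,7}`; `Mt` is the subalgebra of all `Σ θ_S ⊗ w_S` with
`parity w_S = |S| mod 2`; it is alternative.
-/

set_option linter.unusedSectionVars false

namespace H77.Alt

open H85.FA

universe u

/-- subsets of the set of the eight odd variables -/
abbrev Ix := Finset (Fin 8)

/-- number of inversions -/
def inv (S T : Ix) : ℕ := ∑ s ∈ S, ∑ t ∈ T, if t < s then 1 else 0

/-- sign of `θ_S θ_T = ± θ_{S ∪ T}` -/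
def sE (S T : Ix) : ℤ := (-1) ^ inv S T

theorem inv_union_left {S T : Ix} (h : Disjoint S T) (R : Ix) :
    inv (S ∪ T) R = inv S R + inv T R := by
  unfold inv
  rw [Finset.sum_union h]

theorem inv_union_right {S T : Ix} (h : Disjoint S T) (R : Ix) :
    inv R (S ∪ T) = inv R S + inv R T := by
  unfold inv
  rw [← Finset.sum_add_distrib]
  refine Finset.sum_congr rfl fun r _ => ?_
  rw [Finset.sum_union h]

theorem inv_add_inv {S T : Ix} (h : Disjoint S T) : inv S T + inv T S = S.card * T.card := by
  unfold inv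
  rw [Finset.sum_comm (s := T) (t := S), ← Finset.sum_add_distrib]
  have h1 : ∀ s ∈ S, ((∑ t ∈ T, if t < s then 1 else 0) + ∑ t ∈ T, if s < t then 1 else 0)
      = T.card := by
    intro s hs
    rw [← Finset.sum_add_distrib, Finset.card_eq_sum_ones]
    refine Finset.sum_congr rfl fun t ht => ?_
    have hne : s ≠ t := fun e => Finset.disjoint_left.1 h hs (e ▸ ht)
    rcases lt_or_gt_of_ne hne with h2 | h2
    · rw [if_neg (not_lt.2 h2.le), if_pos h2]
    · rw [if_pos h2, if_neg (not_lt.2 h2.le)]
  rw [Finset.sum_congr rfl h1, Finset.sum_const, smul_eq_mul]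

theorem sgn_eq (m n : ℕ) : sgn (odd m && odd n) = (-1) ^ (m * n) := by
  rcases Nat.even_or_odd m with hm | hm
  · have h1 : odd m = false := by
      unfold odd; rw [Nat.even_iff.1 hm]; rfl
    rw [h1, Bool.false_and, Even.neg_one_pow (hm.mul_right n)]
    rfl
  · rcases Nat.even_or_odd n with hn | hn
    · have h1 : odd n = false := by
        unfold odd; rw [Nat.even_iff.1 hn]; rfl
      rw [h1, Bool.and_false, Even.neg_one_pow (hn.mul_left m)]
      rfl
    · have h1 : odd m = true := by
        unfold odd; rw [Nat.odd_iff.1 hm]; rfl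
      have h2 : odd n = true := by
        unfold odd; rw [Nat.odd_iff.1 hn]; rfl
      rw [h1, h2, Odd.neg_one_pow (hm.mul hn)]
      rfl

theorem sE_swap {S T : Ix} (h : Disjoint S T) :
    sE T S = sE S T * sgn (odd S.card && odd T.card) := by
  rw [sgn_eq, ← inv_add_inv h]
  unfold sE
  rw [pow_add, ← mul_assoc, ← pow_add, Even.neg_one_pow ⟨_, rfl⟩, one_mul]

theorem sE_cocycle {S T R : Ix} (h1 : Disjoint S T) (h2 : Disjoint T R) :
    sE S T * sE (S ∪ T) R = sE T R * sE S (T ∪ R) := by
  unfold sE
  rw [inv_union_left h1, inv_union_right h2, ← pow_add, ← pow_add]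
  congr 1
  omega

variable (F : Type u) [Field F]

/-- the algebra `Λ ⊗ W` -/
def E0 : Type u := Ix → W F

noncomputable instance : AddCommGroup (E0 F) := inferInstanceAs (AddCommGroup (Ix → W F))

noncomputable instance : Module F (E0 F) := inferInstanceAs (Module F (Ix → W F))

theorem E0.ext' {f g : E0 F} (h : ∀ U, f U = g U) : f = g := funext h
theorem E0.add_apply (f g : E0 F) (U : Ix) : (f + g) U = f U + g U := rfl
theorem E0.sub_apply (f g : E0 F) (U : Ix) : (f - g) U = f U - g U := rfl
theorem E0.zero_apply (U : Ix) : (0 : E0 F) U = 0 := rfl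
theorem E0.smul_apply (r : F) (f : E0 F) (U : Ix) : (r • f) U = r • f U := rfl
theorem E0.zsmul_apply (r : ℤ) (f : E0 F) (U : Ix) : (r • f) U = r • f U := rfl
theorem E0.neg_apply (f : E0 F) (U : Ix) : (-f) U = - f U := rfl

noncomputable instance : Mul (E0 F) := ⟨fun f g => fun U => ∑ S : Ix, ∑ T : Ix,
  if Disjoint S T ∧ S ∪ T = U then sE S T • (f S * g T) else 0⟩

theorem E0.mul_apply (f g : E0 F) (U : Ix) : (f * g) U = ∑ S : Ix, ∑ T : Ix,
  if Disjoint S T ∧ S ∪ T = U then sE S T • (f S * g T) else 0 := rfl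

noncomputable instance : NonUnitalNonAssocRing (E0 F) where
  left_distrib f g h := by
    refine E0.ext' F fun U => ?_
    simp only [E0.mul_apply, E0.add_apply, mul_add, smul_add]
    simp only [← Finset.sum_add_distrib]
    refine Finset.sum_congr rfl fun S _ => Finset.sum_congr rfl fun T _ => ?_
    split_ifs
    · rfl
    · rw [add_zero]
  right_distrib f g h := by
    refine E0.ext' F fun U => ?_
    simp only [E0.mul_apply, E0.add_apply, add_mul, smul_add]
    simp only [← Finset.sum_add_distrib]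
    refine Finset.sum_congr rfl fun S _ => Finset.sum_congr rfl fun T _ => ?_
    split_ifs
    · rfl
    · rw [add_zero]
  zero_mul f := by
    refine E0.ext' F fun U => ?_
    simp only [E0.mul_apply, E0.zero_apply, zero_mul, smul_zero, ite_self, Finset.sum_const_zero]
  mul_zero f := by
    refine E0.ext' F fun U => ?_
    simp only [E0.mul_apply, E0.zero_apply, mul_zero, smul_zero, ite_self, Finset.sum_const_zero]

instance : IsScalarTower F (E0 F) (E0 F) where
  smul_assoc r f g := by
    refine E0.ext' F fun U => ?_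
    simp only [smul_eq_mul, E0.mul_apply, E0.smul_apply, smul_mul_assoc, Finset.smul_sum]
    refine Finset.sum_congr rfl fun S _ => Finset.sum_congr rfl fun T _ => ?_
    split_ifs
    · rw [smul_comm]
    · rw [smul_zero]

instance : SMulCommClass F (E0 F) (E0 F) where
  smul_comm r f g := by
    refine E0.ext' F fun U => ?_
    simp only [smul_eq_mul, E0.mul_apply, E0.smul_apply, mul_smul_comm, Finset.smul_sum]
    refine Finset.sum_congr rfl fun S _ => Finset.sum_congr rfl fun T _ => ?_
    split_ifs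
    · rw [smul_comm]
    · rw [smul_zero]

/-- `θ_S ⊗ w` -/
noncomputable def sng (S : Ix) (w : W F) : E0 F := fun U => if U = S then w else 0

theorem sng_apply (S : Ix) (w : W F) (U : Ix) : sng F S w U = if U = S then w else 0 := rfl

theorem sng_add (S : Ix) (x y : W F) : sng F S (x + y) = sng F S x + sng F S y := by
  refine E0.ext' F fun U => ?_
  rw [E0.add_apply]
  simp only [sng_apply]
  split_ifs
  · rfl
  · rw [add_zero]

theorem sng_sub (S : Ix) (x y : W F) : sng F S (x - y) = sng F S x - sng F S y := by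
  refine E0.ext' F fun U => ?_
  rw [E0.sub_apply]
  simp only [sng_apply]
  split_ifs
  · rfl
  · rw [sub_zero]

theorem sng_zsmul (S : Ix) (r : ℤ) (x : W F) : sng F S (r • x) = r • sng F S x := by
  refine E0.ext' F fun U => ?_
  rw [E0.zsmul_apply]
  simp only [sng_apply]
  split_ifs
  · rfl
  · rw [smul_zero]

theorem sng_neg (S : Ix) (x : W F) : sng F S (-x) = - sng F S x := by
  refine E0.ext' F fun U => ?_
  rw [E0.neg_apply]
  simp only [sng_apply]
  split_ifs
  · rfl
  · rw [neg_zero]

theorem sum_sng (f : E0 F) : f = ∑ S : Ix, sng F S (f S) := by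
  refine E0.ext' F fun U => ?_
  have h1 : ∀ (s : Finset Ix) (g : Ix → E0 F), (∑ S ∈ s, g S) U = ∑ S ∈ s, g S U :=
    fun s g => Finset.sum_apply U s g
  rw [h1]
  simp only [sng_apply]
  rw [Finset.sum_ite_eq Finset.univ U f, if_pos (Finset.mem_univ U)]

theorem sng_mul {S T : Ix} (h : Disjoint S T) (x y : W F) :
    sng F S x * sng F T y = sng F (S ∪ T) (sE S T • (x * y)) := by
  refine E0.ext' F fun U => ?_
  rw [E0.mul_apply, Finset.sum_eq_single S, Finset.sum_eq_single T]
  · simp only [sng_apply, if_true]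
    by_cases hU : U = S ∪ T
    · subst hU
      rw [if_pos ⟨h, rfl⟩, if_pos rfl]
    · rw [if_neg (fun h' => hU h'.2.symm), if_neg hU]
  · intro T' _ hT
    rw [sng_apply F T, if_neg hT, mul_zero, smul_zero, ite_self]
  · intro h; exact absurd (Finset.mem_univ _) h
  · intro S' _ hS
    refine Finset.sum_eq_zero fun T' _ => ?_
    rw [sng_apply F S, if_neg hS, zero_mul, smul_zero, ite_self]
  · intro h; exact absurd (Finset.mem_univ _) h

theorem sng_mul' {S T : Ix} (h : ¬ Disjoint S T) (x y : W F) :
    sng F S x * sng F T y = 0 := by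
  refine E0.ext' F fun U => ?_
  rw [E0.mul_apply, E0.zero_apply]
  refine Finset.sum_eq_zero fun S' _ => Finset.sum_eq_zero fun T' _ => ?_
  by_cases hS : S' = S
  · by_cases hT : T' = T
    · subst hS; subst hT
      rw [if_neg fun h' => h h'.1]
    · rw [sng_apply F T, if_neg hT, mul_zero, smul_zero, ite_self]
  · rw [sng_apply F S, if_neg hS, zero_mul, smul_zero, ite_self]

/-- associator of pure elements -/
theorem ass_sng {S T R : Ix} (h1 : Disjoint S T) (h2 : Disjoint S R) (h3 : Disjoint T R)
    (x y z : W F) : associator (sng F S x) (sng F T y) (sng F R z) =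
      sng F (S ∪ T ∪ R) ((sE S T * sE (S ∪ T) R) • associator x y z) := by
  unfold associator
  rw [sng_mul F h1, sng_mul F h3, sng_mul F (Finset.disjoint_union_left.2 ⟨h2, h3⟩),
    sng_mul F (Finset.disjoint_union_right.2 ⟨h1, h2⟩), ← Finset.union_assoc, ← sng_sub]
  congr 1
  rw [smul_mul_assoc, mul_smul_comm, smul_smul, smul_smul, smul_sub, mul_comm (sE S (T ∪ R)),
    ← sE_cocycle h1 h3, mul_comm (sE (S ∪ T) R)]

theorem ass_sng' {S T R : Ix} (h : ¬ (Disjoint S T ∧ Disjoint S R ∧ Disjoint T R))
    (x y z : W F) : associator (sng F S x) (sng F T y) (sng F R z) = 0 := by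
  unfold associator
  have e1 : sng F S x * sng F T y * sng F R z = 0 := by
    by_cases h1 : Disjoint S T
    · rw [sng_mul F h1, sng_mul' F]
      rw [Finset.disjoint_union_left]
      tauto
    · rw [sng_mul' F h1, zero_mul]
  have e2 : sng F S x * (sng F T y * sng F R z) = 0 := by
    by_cases h1 : Disjoint T R
    · rw [sng_mul F h1, sng_mul' F]
      rw [Finset.disjoint_union_right]
      tauto
    · rw [sng_mul' F h1, mul_zero]
  rw [e1, e2, sub_zero]

theorem swap_left {S T : Ix} (R : Ix) {x y : W F} (hx : x ∈ H F (odd S.card))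
    (hy : y ∈ H F (odd T.card)) (z : W F) :
    associator (sng F S x) (sng F T y) (sng F R z) =
      - associator (sng F T y) (sng F S x) (sng F R z) := by
  by_cases h : Disjoint S T ∧ Disjoint S R ∧ Disjoint T R
  · rw [ass_sng F h.1 h.2.1 h.2.2, ass_sng F h.1.symm h.2.2 h.2.1, Finset.union_comm T S,
      ← sng_neg, sE_swap h.1, ass_left F hx hy z]
    congr 1
    rw [smul_neg, smul_smul]
    congr 2
    ring
  · rw [ass_sng' F h, ass_sng' F (fun h' => h ⟨h'.1.symm, h'.2.2, h'.2.1⟩), neg_zero]

theorem swap_right {T R : Ix} (S : Ix) {y z : W F} (hy : y ∈ H F (odd T.card))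
    (hz : z ∈ H F (odd R.card)) (x : W F) :
    associator (sng F S x) (sng F T y) (sng F R z) =
      - associator (sng F S x) (sng F R z) (sng F T y) := by
  by_cases h : Disjoint S T ∧ Disjoint S R ∧ Disjoint T R
  · rw [ass_sng F h.1 h.2.1 h.2.2, ass_sng F h.2.1 h.1 h.2.2.symm, Finset.union_right_comm S R T,
      ← sng_neg, ass_right F hy hz x]
    congr 1
    rw [smul_neg, smul_smul]
    congr 2
    have e1 := sE_cocycle h.1 h.2.2
    have e2 := sE_cocycle h.2.1 h.2.2.symm
    rw [e1, e2, sE_swap h.2.2, Finset.union_comm R T]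
    ring
  · rw [ass_sng' F h, ass_sng' F (fun h' => h ⟨h'.2.1, h'.1, h'.2.2.symm⟩), neg_zero]

theorem ass_sum₁ {R ι : Type*} [NonUnitalNonAssocRing R] (s : Finset ι) (a : ι → R) (y z : R) :
    associator (∑ i ∈ s, a i) y z = ∑ i ∈ s, associator (a i) y z := by
  simp only [associator, Finset.sum_mul, Finset.sum_sub_distrib]

theorem ass_sum₂ {R ι : Type*} [NonUnitalNonAssocRing R] (s : Finset ι) (a : ι → R) (x z : R) :
    associator x (∑ i ∈ s, a i) z = ∑ i ∈ s, associator x (a i) z := by
  simp only [associator, Finset.sum_mul, Finset.mul_sum, Finset.sum_sub_distrib]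

theorem ass_sum₃ {R ι : Type*} [NonUnitalNonAssocRing R] (s : Finset ι) (a : ι → R) (x y : R) :
    associator x y (∑ i ∈ s, a i) = ∑ i ∈ s, associator x y (a i) := by
  simp only [associator, Finset.mul_sum, Finset.sum_sub_distrib]

/-- the matched elements -/
def Mt : NonUnitalSubalgebra F (E0 F) where
  carrier := {f | ∀ S, f S ∈ H F (odd S.card)}
  add_mem' {f g} hf hg S := by
    rw [E0.add_apply]; exact add_mem (hf S) (hg S)
  zero_mem' S := by
    rw [E0.zero_apply]; exact zero_mem _
  smul_mem' r f hf S := by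
    rw [E0.smul_apply]; exact Submodule.smul_mem _ _ (hf S)
  mul_mem' {f g} hf hg U := by
    rw [E0.mul_apply]
    refine sum_mem fun S _ => sum_mem fun T _ => ?_
    split_ifs with h
    · refine zsmul_mem ?_ _
      rw [← h.2, Finset.card_union_of_disjoint h.1, odd_add]
      exact mul_mem_H F (hf S) (hg T)
    · exact zero_mem _

theorem mem_Mt {f : E0 F} : f ∈ Mt F ↔ ∀ S, f S ∈ H F (odd S.card) := Iff.rfl

theorem ass_ffh (hT : TF (E0 F)) {f : E0 F} (hf : f ∈ Mt F) (h : E0 F) :
    associator f f h = 0 := by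
  apply hT.1
  have e : associator f f h = ∑ S : Ix, ∑ T : Ix, ∑ R : Ix,
      associator (sng F S (f S)) (sng F T (f T)) (sng F R (h R)) := by
    conv_lhs => rw [sum_sng F f, sum_sng F h]
    rw [ass_sum₁]
    refine Finset.sum_congr rfl fun S _ => ?_
    rw [ass_sum₂]
    refine Finset.sum_congr rfl fun T _ => ?_
    rw [ass_sum₃]
  rw [e]
  nth_rw 2 [Finset.sum_comm]
  rw [← Finset.sum_add_distrib]
  refine Finset.sum_eq_zero fun S _ => ?_
  rw [← Finset.sum_add_distrib]
  refine Finset.sum_eq_zero fun T _ => ?_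
  rw [← Finset.sum_add_distrib]
  refine Finset.sum_eq_zero fun R _ => ?_
  rw [swap_left F R (hf S) (hf T) (h R), neg_add_cancel]

theorem ass_hff (hT : TF (E0 F)) {f : E0 F} (hf : f ∈ Mt F) (h : E0 F) :
    associator h f f = 0 := by
  apply hT.1
  have e : associator h f f = ∑ R : Ix, ∑ S : Ix, ∑ T : Ix,
      associator (sng F R (h R)) (sng F S (f S)) (sng F T (f T)) := by
    conv_lhs => rw [sum_sng F f, sum_sng F h]
    rw [ass_sum₁]
    refine Finset.sum_congr rfl fun S _ => ?_
    rw [ass_sum₂]
    refine Finset.sum_congr rfl fun T _ => ?_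
    rw [ass_sum₃]
  rw [e, ← Finset.sum_add_distrib]
  refine Finset.sum_eq_zero fun R _ => ?_
  nth_rw 2 [Finset.sum_comm]
  rw [← Finset.sum_add_distrib]
  refine Finset.sum_eq_zero fun S _ => ?_
  rw [← Finset.sum_add_distrib]
  refine Finset.sum_eq_zero fun T _ => ?_
  rw [swap_right F R (hf S) (hf T) (h R), neg_add_cancel]

theorem Mt_isAlt (h2 : (2 : F) ≠ 0) (h3 : (3 : F) ≠ 0) : IsAlt (Mt F) := by
  have hT : TF (E0 F) := TF.of_module F h2 h3 (E0 F)
  constructor
  · intro x y
    apply Subtype.ext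
    exact ass_ffh F hT x.2 y.1
  · intro x y
    apply Subtype.ext
    exact ass_hff F hT x.2 y.1

end H77.Alt
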