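import Pool.Agent.H77.Alt.Env
import Pool.Agent.H85.FA.Free
import Pool.Agent.H85.FA.P10

/-!
# MP_273d7a_al, model: evaluation, and the theorem `hasModel`
-/

set_option linter.unusedSectionVars false

namespace H77.Alt

open H85.FA

universe u

variable (F : Type u) [Field F]

/-- `θ_S ⊗ lc u` -/
noncomputable def pv (S : Ix) (u : Vec) : E0 F := sng F S (lc (e F) u)

theorem pv_mul {S T : Ix} (h : Disjoint S T) (u v : Vec) :
    pv F S u * pv F T v = pv F (S ∪ T) (mulVV (sE S T) u v []) := by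
  unfold pv
  rw [sng_mul F h, lc_mulVV, lc_nil, add_zero]

/-- vector of an associator, with a sign -/
def assV (s : ℤ) (u v w : Vec) : Vec :=
  mulVV (-s) u (mulVV 1 v w []) (mulVV s (mulVV 1 u v []) w [])

theorem lc_assV (s : ℤ) (u v w : Vec) : lc (e F) (assV s u v w) =
    s • associator (lc (e F) u) (lc (e F) v) (lc (e F) w) := by
  unfold assV associator
  rw [lc_mulVV, lc_mulVV, lc_mulVV, lc_mulVV, lc_nil, add_zero, add_zero, add_zero, one_smul,
    one_smul, smul_sub, neg_smul]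
  abel

theorem pv_ass {S T R : Ix} (h1 : Disjoint S T) (h2 : Disjoint S R) (h3 : Disjoint T R)
    (u v w : Vec) : associator (pv F S u) (pv F T v) (pv F R w) =
      pv F (S ∪ T ∪ R) (assV (sE S T * sE (S ∪ T) R) u v w) := by
  unfold pv
  rw [ass_sng F h1 h2 h3, lc_assV]

theorem pv_jr {S T : Ix} (h : Disjoint S T) (u v : Vec) :
    jr (pv F S u) (pv F T v) =
      pv F (S ∪ T) (mulVV (sE T S) v u (mulVV (sE S T) u v [])) := by
  unfold jr
  rw [pv_mul F h, pv_mul F h.symm, Finset.union_comm T S]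
  unfold pv
  rw [← sng_add]
  congr 1
  simp only [lc_mulVV, lc_nil, add_zero]
  rw [add_comm]

theorem pv_cm {S T : Ix} (h : Disjoint S T) (u v : Vec) :
    cm (pv F S u) (pv F T v) =
      pv F (S ∪ T) (mulVV (-sE T S) v u (mulVV (sE S T) u v [])) := by
  unfold cm
  rw [pv_mul F h, pv_mul F h.symm, Finset.union_comm T S]
  unfold pv
  rw [← sng_sub]
  congr 1
  simp only [lc_mulVV, lc_nil, add_zero, neg_smul]
  abel

theorem pv_merge (c : ℤ) (S : Ix) (u v : Vec) :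
    c • pv F S u + pv F S v = pv F S (merge c u v) := by
  unfold pv
  rw [lc_merge, sng_add, sng_zsmul]

theorem pv_nil (S : Ix) : pv F S [] = 0 := by
  unfold pv
  rw [lc_nil]
  refine E0.ext' F fun U => ?_
  rw [sng_apply, ite_self]
  rfl

/-- odd variables used for the letters `r_i` -/
def Sx : ℕ → Ix
  | 0 => {0}
  | 1 => {1}
  | 2 => {2}
  | 3 => {3}
  | _ => ∅

/-- the letters: `x` and, for `r_4`, `a` -/
def Vx : ℕ → Vec
  | 0 => [(0, 1)]
  | 1 => [(0, 1)]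
  | 2 => [(0, 1)]
  | 3 => [(0, 1)]
  | _ => [(1, 1)]

/-- the union of the supports -/
def S5 : Ix := {0, 1, 2, 3, 4}

/-- condition on an index tuple -/
def cond5 (t : ℤ × ℕ × ℕ × ℕ × ℕ × ℕ) : Prop :=
  Disjoint (Sx t.2.1) (Sx t.2.2.1) ∧ Disjoint (Sx t.2.1) (Sx t.2.2.2.1) ∧
  Disjoint (Sx t.2.2.1) (Sx t.2.2.2.1) ∧
  Disjoint {4} (Sx t.2.2.2.2.1) ∧ Disjoint {4} (Sx t.2.2.2.2.2) ∧
  Disjoint (Sx t.2.2.2.2.1) (Sx t.2.2.2.2.2) ∧
  Disjoint (Sx t.2.1 ∪ Sx t.2.2.1 ∪ Sx t.2.2.2.1) ({4} ∪ Sx t.2.2.2.2.1 ∪ Sx t.2.2.2.2.2) ∧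
  Sx t.2.1 ∪ Sx t.2.2.1 ∪ Sx t.2.2.2.1 ∪ ({4} ∪ Sx t.2.2.2.2.1 ∪ Sx t.2.2.2.2.2) = S5

instance (t : ℤ × ℕ × ℕ × ℕ × ℕ × ℕ) : Decidable (cond5 t) := by
  unfold cond5; infer_instance

/-- vector of one term of `ccL` -/
def termV (t : ℤ × ℕ × ℕ × ℕ × ℕ × ℕ) : Vec :=
  let S := Sx t.2.1 ∪ Sx t.2.2.1 ∪ Sx t.2.2.2.1
  let T := {4} ∪ Sx t.2.2.2.2.1 ∪ Sx t.2.2.2.2.2
  let u := assV (sE (Sx t.2.1) (Sx t.2.2.1) * sE (Sx t.2.1 ∪ Sx t.2.2.1) (Sx t.2.2.2.1))
    (Vx t.2.1) (Vx t.2.2.1) (Vx t.2.2.2.1)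
  let v := assV (sE {4} (Sx t.2.2.2.2.1) * sE ({4} ∪ Sx t.2.2.2.2.1) (Sx t.2.2.2.2.2))
    [(0, 1)] (Vx t.2.2.2.2.1) (Vx t.2.2.2.2.2)
  mulVV (sE T S) v u (mulVV (sE S T) u v [])

theorem term_eq {t : ℤ × ℕ × ℕ × ℕ × ℕ × ℕ} (h : cond5 t) :
    jr (associator (pv F (Sx t.2.1) (Vx t.2.1)) (pv F (Sx t.2.2.1) (Vx t.2.2.1))
      (pv F (Sx t.2.2.2.1) (Vx t.2.2.2.1)))
      (associator (pv F {4} [(0, 1)]) (pv F (Sx t.2.2.2.2.1) (Vx t.2.2.2.2.1))
      (pv F (Sx t.2.2.2.2.2) (Vx t.2.2.2.2.2))) = pv F S5 (termV t) := by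
  obtain ⟨h1, h2, h3, h4, h5, h6, h7, h8⟩ := h
  rw [pv_ass F h1 h2 h3, pv_ass F h4 h5 h6, pv_jr F h7, h8]
  rfl

/-- vector of `ccL` -/
def ccV : List (ℤ × ℕ × ℕ × ℕ × ℕ × ℕ) → Vec
  | [] => []
  | t :: P => merge t.1 (termV t) (ccV P)

theorem ccL_eq (P : List (ℤ × ℕ × ℕ × ℕ × ℕ × ℕ)) (h : ∀ t ∈ P, cond5 t) :
    ccL P (fun i => pv F (Sx i) (Vx i)) (pv F {4} [(0, 1)]) = pv F S5 (ccV P) := by
  induction P with
  | nil =>
    rw [ccV, pv_nil]
    rfl
  | cons t P ih =>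
    have ih := ih fun s hs => h s (List.mem_cons_of_mem _ hs)
    rw [ccV, ← pv_merge, ← ih, ← term_eq F (h t List.mem_cons_self)]
    unfold ccL
    rw [List.map_cons, List.sum_cons]

theorem P10_cond : ∀ t ∈ P10, cond5 t := by decide

/-- vector of the commutator -/
def yV : Vec := mulVV (-sE {5} S5) [(0, 1)] (ccV P10) (mulVV (sE S5 {5}) (ccV P10) [(0, 1)] [])

/-- vector of the final value -/
def zV : Vec := assV (sE (S5 ∪ {5}) {6} * sE (S5 ∪ {5} ∪ {6}) {7}) yV [(0, 1)] [(0, 1)]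

theorem value : associator (cm (ccL P10 (fun i => pv F (Sx i) (Vx i)) (pv F {4} [(0, 1)]))
    (pv F {5} [(0, 1)])) (pv F {6} [(0, 1)]) (pv F {7} [(0, 1)]) =
      pv F (S5 ∪ {5} ∪ {6} ∪ {7}) zV := by
  rw [ccL_eq F P10 P10_cond, pv_cm F (by decide), pv_ass F (by decide) (by decide) (by decide)]
  rfl

set_option maxRecDepth 100000 in
theorem coef_zV : coef 70 zV = -5159780352 := by decide +kernel

/-- pure elements of the envelope -/
noncomputable def pt (S : Ix) (u : Vec) (h : lc (e F) u ∈ H F (odd S.card)) : Mt F :=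
  ⟨pv F S u, fun U => by
    unfold pv
    rw [sng_apply]
    split_ifs with hU
    · rw [hU]; exact h
    · exact zero_mem _⟩

theorem mem0 : lc (e F) [(0, 1)] ∈ H F true := by
  apply lc_mem
  intro w hw
  rw [List.mem_singleton] at hw
  subst hw
  decide

theorem mem1 : lc (e F) [(1, 1)] ∈ H F false := by
  apply lc_mem
  intro w hw
  rw [List.mem_singleton] at hw
  subst hw
  decide

theorem mem_one (S : Ix) (h : odd S.card = true) : lc (e F) [(0, 1)] ∈ H F (odd S.card) := by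
  rw [h]; exact mem0 F

theorem mem_Vx (i : ℕ) : lc (e F) (Vx i) ∈ H F (odd (Sx i).card) := by
  rcases i with _ | _ | _ | _ | i
  · exact mem_one F (Sx 0) (by decide)
  · exact mem_one F (Sx 1) (by decide)
  · exact mem_one F (Sx 2) (by decide)
  · exact mem_one F (Sx 3) (by decide)
  · have h : odd (Sx (i + 4)).card = false := by
      change odd (∅ : Ix).card = false
      decide
    rw [h]
    exact mem1 F

/-- the letters `r_i` in the envelope -/
noncomputable def rr (i : ℕ) : Mt F := pt F (Sx i) (Vx i) (mem_Vx F i)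

theorem rr_coe (i : ℕ) : ((rr F i : Mt F) : E0 F) = pv F (Sx i) (Vx i) := rfl

theorem coe_ass (x y z : Mt F) :
    ((associator x y z : Mt F) : E0 F) = associator (x : E0 F) y z := rfl

theorem coe_cm (x y : Mt F) : ((cm x y : Mt F) : E0 F) = cm (x : E0 F) y := rfl

theorem coe_jr (x y : Mt F) : ((jr x y : Mt F) : E0 F) = jr (x : E0 F) y := rfl

/-- the inclusion -/
def incl : Mt F →+ E0 F where
  toFun := Subtype.val
  map_zero' := rfl
  map_add' _ _ := rfl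

theorem incl_ass (x y z : Mt F) :
    incl F (associator x y z) = associator (incl F x) (incl F y) (incl F z) := coe_ass F x y z

theorem incl_jr (x y : Mt F) : incl F (jr x y) = jr (incl F x) (incl F y) := coe_jr F x y

theorem incl_cm (x y : Mt F) : incl F (cm x y) = cm (incl F x) (incl F y) := coe_cm F x y

theorem incl_ccL (P : List (ℤ × ℕ × ℕ × ℕ × ℕ × ℕ)) (r : ℕ → Mt F) (a : Mt F) :
    incl F (ccL P r a) = ccL P (fun i => incl F (r i)) (incl F a) := by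
  unfold ccL
  rw [map_list_sum, List.map_map]
  refine congrArg List.sum (List.map_congr_left fun t _ => ?_)
  rw [Function.comp_apply, map_zsmul, incl_jr, incl_ass, incl_ass]

/-- **the model** -/
theorem hasModel (h2 : (2 : F) ≠ 0) (h3 : (3 : F) ≠ 0) : HasModel F P10 := by
  refine ⟨Mt F, inferInstance, inferInstance, inferInstance, inferInstance, Mt_isAlt F h2 h3,
    P10_lt, rr F, pt F {4} [(0, 1)] (mem_one F _ (by decide)),
    pt F {5} [(0, 1)] (mem_one F _ (by decide)), pt F {6} [(0, 1)] (mem_one F _ (by decide)),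
    pt F {7} [(0, 1)] (mem_one F _ (by decide)), fun h => ?_⟩
  have h1 := congrArg (incl F) h
  rw [incl_ass, incl_cm, incl_ccL, map_zero] at h1
  have h4 : associator (cm (ccL P10 (fun i => pv F (Sx i) (Vx i)) (pv F {4} [(0, 1)]))
    (pv F {5} [(0, 1)])) (pv F {6} [(0, 1)]) (pv F {7} [(0, 1)]) = 0 := h1
  rw [value] at h4
  have h5 := congrFun h4 (S5 ∪ {5} ∪ {6} ∪ {7})
  unfold pv at h5
  rw [sng_apply, if_pos rfl, E0.zero_apply] at h5
  have h6 := congrArg (fun w => toF F w 70) h5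
  simp only [lc_coef, coef_zV, map_zero, Finsupp.zero_apply] at h6
  have h7 : ((-5159780352 : ℤ) : F) = - (2 ^ 18 * 3 ^ 9) := by
    have : (-5159780352 : ℤ) = - (2 ^ 18 * 3 ^ 9) := by norm_num
    rw [this, Int.cast_neg, Int.cast_mul, Int.cast_pow, Int.cast_pow, Int.cast_ofNat,
      Int.cast_ofNat]
  rw [h7, neg_eq_zero] at h6
  exact mul_ne_zero (pow_ne_zero _ h2) (pow_ne_zero _ h3) h6

end H77.Alt
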