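import Pool.Agent.H77.Alt.Check

/-!
# MP_273d7a_al, model: the superalgebra over a field and its super-alternative laws
-/

set_option linter.unusedSectionVars false

namespace H77.Alt

open H85.FA

universe u

variable (F : Type u) [Field F]

/-- the underlying space of the superalgebra, with basis `e_0, e_1, …` -/
def W : Type u := ℕ →₀ F

noncomputable instance : AddCommGroup (W F) := inferInstanceAs (AddCommGroup (ℕ →₀ F))

noncomputable instance : Module F (W F) := inferInstanceAs (Module F (ℕ →₀ F))

/-- basis vectors -/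
noncomputable def e (i : ℕ) : W F := (Finsupp.single i 1 : ℕ →₀ F)

/-- the identity map -/
noncomputable def toF : W F ≃ₗ[F] (ℕ →₀ F) := LinearEquiv.refl F (ℕ →₀ F)

/-- linear maps defined on the basis -/
noncomputable def ext {M : Type u} [AddCommGroup M] [Module F M] (f : ℕ → M) : W F →ₗ[F] M :=
  (Finsupp.lift M F ℕ f).comp (toF F).toLinearMap

theorem ext_e {M : Type u} [AddCommGroup M] [Module F M] (f : ℕ → M) (i : ℕ) :
    ext F f (e F i) = f i := by
  change (Finsupp.lift M F ℕ f) (Finsupp.single i 1) = f i
  rw [Finsupp.lift_apply, Finsupp.sum_single_index (h := fun x (r : F) => r • f x) (zero_smul F _),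
    one_smul]

/-- the product -/
noncomputable def mulMap : W F →ₗ[F] W F →ₗ[F] W F :=
  ext F fun i => ext F fun j => lc (e F) (C i j)

noncomputable instance : Mul (W F) := ⟨fun x y => mulMap F x y⟩

theorem mul_def (x y : W F) : x * y = mulMap F x y := rfl

noncomputable instance : NonUnitalNonAssocRing (W F) where
  left_distrib x y z := by
    change mulMap F x (y + z) = mulMap F x y + mulMap F x z
    exact map_add _ _ _
  right_distrib x y z := by
    change mulMap F (x + y) z = mulMap F x z + mulMap F y z
    rw [map_add]; rfl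
  zero_mul x := by
    change mulMap F 0 x = 0
    rw [map_zero]; rfl
  mul_zero x := by
    change mulMap F x 0 = 0
    exact map_zero _

instance : IsScalarTower F (W F) (W F) where
  smul_assoc r x y := by
    change mulMap F (r • x) y = r • mulMap F x y
    rw [map_smul]; rfl

instance : SMulCommClass F (W F) (W F) where
  smul_comm r x y := by
    change r • mulMap F x y = mulMap F x (r • y)
    rw [map_smul]

theorem e_mul_e (i j : ℕ) : e F i * e F j = lc (e F) (C i j) := by
  change mulMap F (e F i) (e F j) = _
  unfold mulMap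
  rw [ext_e, ext_e]

theorem lc_mulRt (s : ℤ) (k : ℕ) (u acc : Vec) :
    lc (e F) (mulRt s k u acc) = s • (lc (e F) u * e F k) + lc (e F) acc := by
  induction u generalizing acc with
  | nil => rw [mulRt, lc_nil, zero_mul, smul_zero, zero_add]
  | cons d u ih =>
    obtain ⟨m, x⟩ := d
    rw [mulRt, ih, lc_merge, lc_cons, add_mul, smul_mul_assoc, e_mul_e, smul_add, smul_smul]
    abel

theorem lc_mulLt (s : ℤ) (i : ℕ) (u acc : Vec) :
    lc (e F) (mulLt s i u acc) = s • (e F i * lc (e F) u) + lc (e F) acc := by
  induction u generalizing acc with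
  | nil => rw [mulLt, lc_nil, mul_zero, smul_zero, zero_add]
  | cons d u ih =>
    obtain ⟨m, x⟩ := d
    rw [mulLt, ih, lc_merge, lc_cons, mul_add, mul_smul_comm, e_mul_e, smul_add, smul_smul]
    abel

theorem lc_asV (s : ℤ) (i j k : ℕ) (acc : Vec) :
    lc (e F) (asV s i j k acc) = s • associator (e F i) (e F j) (e F k) + lc (e F) acc := by
  unfold asV associator
  rw [lc_mulLt, lc_mulRt, e_mul_e, e_mul_e, smul_sub, neg_smul]
  abel

/-! ### degrees -/

theorem C_ge {i j : ℕ} (h : ¬ (i < 71 ∧ j < 71)) : C i j = [] := by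
  unfold C
  have : (Nat.blt i 71 && Nat.blt j 71) = false := by
    rw [Bool.and_eq_false_iff]
    rcases not_and_or.1 h with h | h
    · left
      rw [← Bool.not_eq_true]
      intro h'
      exact h (Nat.blt_eq.mp h')
    · right
      rw [← Bool.not_eq_true]
      intro h'
      exact h (Nat.blt_eq.mp h')
  rw [this, cond_false]

theorem mem_C {i j : ℕ} {w : ℕ × ℤ} (h : w ∈ C i j) :
    dx w.1 = dx i + dx j ∧ da w.1 = da i + da j ∧ dx w.1 ≤ 8 ∧ da w.1 ≤ 1 := by
  by_cases hij : i < 71 ∧ j < 71
  · have h1 := checkPairs_ok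
    unfold checkPairs at h1
    rw [List.all_eq_true] at h1
    have h2 := h1 _ (degs_mem i hij.1)
    rw [List.all_eq_true] at h2
    have h3 := h2 _ (degs_mem j hij.2)
    rw [List.all_eq_true] at h3
    have h4 := h3 _ h
    simp only [Bool.and_eq_true, Nat.beq_eq, Nat.ble_eq] at h4
    exact ⟨h4.1, h4.2.1, h4.2.2.1, h4.2.2.2⟩
  · rw [C_ge hij] at h
    exact absurd h List.not_mem_nil

theorem C_eq_nil {i j : ℕ} (h : ¬ (dx i + dx j ≤ 8 ∧ da i + da j ≤ 1)) : C i j = [] := by
  rw [List.eq_nil_iff_forall_not_mem]
  intro w hw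
  have := mem_C hw
  omega

theorem mulRt_nil {k : ℕ} {u : Vec} (h : ∀ w ∈ u, C w.1 k = []) :
    lc (e F) u * e F k = 0 := by
  induction u with
  | nil => rw [lc_nil, zero_mul]
  | cons d u ih =>
    obtain ⟨m, x⟩ := d
    rw [lc_cons, add_mul, smul_mul_assoc, e_mul_e, h (m, x) List.mem_cons_self, lc_nil, smul_zero,
      zero_add]
    exact ih fun w hw => h w (List.mem_cons_of_mem _ hw)

theorem mulLt_nil {i : ℕ} {u : Vec} (h : ∀ w ∈ u, C i w.1 = []) :
    e F i * lc (e F) u = 0 := by
  induction u with
  | nil => rw [lc_nil, mul_zero]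
  | cons d u ih =>
    obtain ⟨m, x⟩ := d
    rw [lc_cons, mul_add, mul_smul_comm, e_mul_e, h (m, x) List.mem_cons_self, lc_nil, smul_zero,
      zero_add]
    exact ih fun w hw => h w (List.mem_cons_of_mem _ hw)

/-- associators out of range vanish -/
theorem ass_out {i j k : ℕ} (h : ¬ (dx i + dx j + dx k ≤ 8 ∧ da i + da j + da k ≤ 1)) :
    associator (e F i) (e F j) (e F k) = 0 := by
  unfold associator
  rw [e_mul_e, e_mul_e, mulRt_nil F, mulLt_nil F, sub_zero]
  · intro w hw
    have := mem_C hw
    apply C_eq_nil
    omega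
  · intro w hw
    have := mem_C hw
    apply C_eq_nil
    omega

/-- associators with an index `≥ 71` vanish -/
theorem ass_ge {i j k : ℕ} (h : ¬ (i < 71 ∧ j < 71 ∧ k < 71)) :
    associator (e F i) (e F j) (e F k) = 0 := by
  unfold associator
  by_cases hk : k < 71
  · by_cases hi : i < 71
    · have hj : ¬ j < 71 := fun hj => h ⟨hi, hj, hk⟩
      rw [e_mul_e, e_mul_e, C_ge (fun h' => hj h'.2), C_ge (fun h' => hj h'.1), lc_nil, zero_mul,
        mul_zero, sub_zero]
    · rw [e_mul_e, e_mul_e, C_ge (fun h' => hi h'.1), lc_nil, zero_mul, zero_sub,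
        mulLt_nil F, neg_zero]
      intro w _
      exact C_ge fun h' => hi h'.1
  · rw [e_mul_e, e_mul_e, C_ge (i := j) (fun h' => hk h'.2), lc_nil, mul_zero, sub_zero,
      mulRt_nil F]
    intro w _
    exact C_ge fun h' => hk h'.2

theorem sg2_comm (p q : ℕ) : sg2 p q = sg2 q p := by
  unfold sg2
  rw [mul_comm]

theorem chk {i j k : ℕ} : associator (e F i) (e F j) (e F k) +
      sg2 (dx i) (dx j) • associator (e F j) (e F i) (e F k) = 0 ∧
    associator (e F i) (e F j) (e F k) +
      sg2 (dx j) (dx k) • associator (e F i) (e F k) (e F j) = 0 := by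
  by_cases hlt : i < 71 ∧ j < 71 ∧ k < 71
  · by_cases hr : dx i + dx j + dx k ≤ 8 ∧ da i + da j + da k ≤ 1
    · have h1 := checkTriples_ok
      unfold checkTriples at h1
      rw [List.all_eq_true] at h1
      have h2 := h1 _ (degs_mem i hlt.1)
      rw [List.all_eq_true] at h2
      have h3 := h2 _ (degs_mem j hlt.2.1)
      have c1 : (Nat.ble (dx i + dx j) 8 && Nat.ble (da i + da j) 1) = true := by
        rw [Bool.and_eq_true, Nat.ble_eq, Nat.ble_eq]; omega
      have c2 : (Nat.ble (dx i + dx j + dx k) 8 && Nat.ble (da i + da j + da k) 1) = true := by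
        rw [Bool.and_eq_true, Nat.ble_eq, Nat.ble_eq]; omega
      simp only [c1, cond_true] at h3
      rw [List.all_eq_true] at h3
      have h4 := h3 _ (degs_mem k hlt.2.2)
      simp only [c2, cond_true] at h4
      unfold chk3 at h4
      rw [Bool.and_eq_true] at h4
      have h5 := lc_allZero (e F) h4.1
      have h6 := lc_allZero (e F) h4.2
      rw [lc_asV, lc_asV, lc_nil, one_smul, add_zero] at h5 h6
      exact ⟨h5, h6⟩
    · rw [ass_out F hr, ass_out F (i := j) (j := i) (k := k) (by omega),
        ass_out F (i := i) (j := k) (k := j) (by omega)]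
      simp
  · rw [ass_ge F hlt, ass_ge F (i := j) (j := i) (k := k) (by tauto),
      ass_ge F (i := i) (j := k) (k := j) (by tauto)]
    simp

/-! ### homogeneous elements -/

/-- parity of a number -/
def odd (n : ℕ) : Bool := Nat.beq (n % 2) 1

/-- elements of parity `b` -/
noncomputable def H (b : Bool) : Submodule F (W F) := Submodule.span F {w | ∃ i, odd (dx i) = b ∧ w = e F i}

theorem e_mem (i : ℕ) : e F i ∈ H F (odd (dx i)) := Submodule.subset_span ⟨i, rfl, rfl⟩

theorem odd_add (p q : ℕ) : odd (p + q) = xor (odd p) (odd q) := by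
  unfold odd
  rw [Nat.add_mod]
  rcases Nat.mod_two_eq_zero_or_one p with h | h <;>
    rcases Nat.mod_two_eq_zero_or_one q with h' | h' <;>
    rw [h, h'] <;> rfl

theorem sg2_eq (p q : ℕ) : sg2 p q = bif (odd p && odd q) then -1 else 1 := by
  unfold sg2 odd
  rw [Nat.mul_mod]
  rcases Nat.mod_two_eq_zero_or_one p with h | h <;>
    rcases Nat.mod_two_eq_zero_or_one q with h' | h' <;>
    rw [h, h'] <;> rfl

theorem lc_mem {b : Bool} {u : Vec} (h : ∀ w ∈ u, odd (dx w.1) = b) : lc (e F) u ∈ H F b := by
  induction u with
  | nil => rw [lc_nil]; exact zero_mem _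
  | cons d u ih =>
    obtain ⟨m, x⟩ := d
    rw [lc_cons]
    refine add_mem (zsmul_mem ?_ _) (ih fun w hw => h w (List.mem_cons_of_mem _ hw))
    rw [← h (m, x) List.mem_cons_self]
    exact e_mem F m

theorem mul_mem_H {b c : Bool} {x y : W F} (hx : x ∈ H F b) (hy : y ∈ H F c) :
    x * y ∈ H F (xor b c) := by
  unfold H at hx
  induction hx using Submodule.span_induction with
  | zero => rw [zero_mul]; exact zero_mem _
  | add x x' _ _ h1 h2 => rw [add_mul]; exact add_mem h1 h2
  | smul r x _ h1 => rw [smul_mul_assoc]; exact Submodule.smul_mem _ _ h1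
  | mem x hx =>
    obtain ⟨i, hi, rfl⟩ := hx
    unfold H at hy
    induction hy using Submodule.span_induction with
    | zero => rw [mul_zero]; exact zero_mem _
    | add y y' _ _ h1 h2 => rw [mul_add]; exact add_mem h1 h2
    | smul r y _ h1 => rw [mul_smul_comm]; exact Submodule.smul_mem _ _ h1
    | mem y hy =>
      obtain ⟨j, hj, rfl⟩ := hy
      rw [e_mul_e]
      apply lc_mem
      intro w hw
      rw [(mem_C hw).1, odd_add, hi, hj]

theorem ass_add₁ {R : Type*} [NonUnitalNonAssocRing R] (x x' y z : R) :
    associator (x + x') y z = associator x y z + associator x' y z := by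
  simp only [associator, add_mul]; abel

theorem ass_add₂ {R : Type*} [NonUnitalNonAssocRing R] (x y y' z : R) :
    associator x (y + y') z = associator x y z + associator x y' z := by
  simp only [associator, add_mul, mul_add]; abel

theorem ass_add₃ {R : Type*} [NonUnitalNonAssocRing R] (x y z z' : R) :
    associator x y (z + z') = associator x y z + associator x y z' := by
  simp only [associator, mul_add]; abel

section smul
variable {F} {R : Type u} [NonUnitalNonAssocRing R] [Module F R] [IsScalarTower F R R]
  [SMulCommClass F R R]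

theorem ass_smul₁ (r : F) (x y z : R) : associator (r • x) y z = r • associator x y z := by
  simp only [associator, smul_mul_assoc, smul_sub]

theorem ass_smul₂ (r : F) (x y z : R) : associator x (r • y) z = r • associator x y z := by
  simp only [associator, smul_mul_assoc, mul_smul_comm, smul_sub]

theorem ass_smul₃ (r : F) (x y z : R) : associator x y (r • z) = r • associator x y z := by
  simp only [associator, mul_smul_comm, smul_sub]

end smul

/-- every element is a linear combination of basis elements -/
theorem W_induction {P : W F → Prop} (h0 : P 0) (ha : ∀ x y, P x → P y → P (x + y))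
    (hs : ∀ (r : F) i, P (r • e F i)) (x : W F) : P x := by
  refine Finsupp.induction_linear (motive := P) x h0 (fun x y => ha x y) ?_
  intro i r
  have : (Finsupp.single i r : W F) = r • e F i := by
    unfold e
    change (Finsupp.single i r : ℕ →₀ F) = r • (Finsupp.single i 1 : ℕ →₀ F)
    rw [Finsupp.smul_single, smul_eq_mul, mul_one]
  rw [this]
  exact hs r i

/-- sign -/
def sgn (b : Bool) : ℤ := bif b then -1 else 1

/-- **left super-alternativity** -/
theorem ass_left {b c : Bool} {x y : W F} (hx : x ∈ H F b) (hy : y ∈ H F c) (z : W F) :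
    associator x y z = - (sgn (b && c) • associator y x z) := by
  unfold H at hx
  induction hx using Submodule.span_induction with
  | zero => simp [associator]
  | add x x' _ _ h1 h2 => rw [ass_add₁, ass_add₂, h1, h2, smul_add]; abel
  | smul r x _ h1 => rw [ass_smul₁, ass_smul₂, h1, smul_neg, smul_comm]
  | mem x hx =>
    obtain ⟨i, hi, rfl⟩ := hx
    unfold H at hy
    induction hy using Submodule.span_induction with
    | zero => simp [associator]
    | add y y' _ _ h1 h2 => rw [ass_add₁, ass_add₂, h1, h2, smul_add]; abel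
    | smul r y _ h1 => rw [ass_smul₁, ass_smul₂, h1, smul_neg, smul_comm]
    | mem y hy =>
      obtain ⟨j, hj, rfl⟩ := hy
      refine W_induction F (P := fun z => associator (e F i) (e F j) z =
        - (sgn (b && c) • associator (e F j) (e F i) z)) ?_ ?_ ?_ z
      · simp [associator]
      · intro z z' h1 h2
        rw [ass_add₃, ass_add₃, h1, h2, smul_add]; abel
      · intro r k
        rw [ass_smul₃, ass_smul₃, smul_comm, ← smul_neg]
        congr 1
        have h := (chk F (i := i) (j := j) (k := k)).1
        rw [sg2_eq, hi, hj] at h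
        exact eq_neg_of_add_eq_zero_left h

/-- **right super-alternativity** -/
theorem ass_right {b c : Bool} {y z : W F} (hy : y ∈ H F b) (hz : z ∈ H F c) (x : W F) :
    associator x y z = - (sgn (b && c) • associator x z y) := by
  unfold H at hy
  induction hy using Submodule.span_induction with
  | zero => simp [associator]
  | add y y' _ _ h1 h2 => rw [ass_add₂, ass_add₃, h1, h2, smul_add]; abel
  | smul r y _ h1 => rw [ass_smul₂, ass_smul₃, h1, smul_neg, smul_comm]
  | mem y hy =>
    obtain ⟨j, hj, rfl⟩ := hy
    unfold H at hz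
    induction hz using Submodule.span_induction with
    | zero => simp [associator]
    | add z z' _ _ h1 h2 => rw [ass_add₂, ass_add₃, h1, h2, smul_add]; abel
    | smul r z _ h1 => rw [ass_smul₂, ass_smul₃, h1, smul_neg, smul_comm]
    | mem z hz =>
      obtain ⟨k, hk, rfl⟩ := hz
      refine W_induction F (P := fun x => associator x (e F j) (e F k) =
        - (sgn (b && c) • associator x (e F k) (e F j))) ?_ ?_ ?_ x
      · simp [associator]
      · intro x x' h1 h2
        rw [ass_add₁, ass_add₁, h1, h2, smul_add]; abel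
      · intro r i
        rw [ass_smul₁, ass_smul₁, smul_comm, ← smul_neg]
        congr 1
        have h := (chk F (i := i) (j := j) (k := k)).2
        rw [sg2_eq, hj, hk] at h
        exact eq_neg_of_add_eq_zero_left h

/-! ### computing with integer vectors -/

/-- `acc + s • (u * v)` -/
def mulVV (s : ℤ) (u : Vec) : Vec → Vec → Vec
  | [], acc => acc
  | (k, y) :: v, acc => mulVV s u v (mulRt (s * y) k u acc)

theorem lc_mulVV (s : ℤ) (u v acc : Vec) :
    lc (e F) (mulVV s u v acc) = s • (lc (e F) u * lc (e F) v) + lc (e F) acc := by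
  induction v generalizing acc with
  | nil => rw [mulVV, lc_nil, mul_zero, smul_zero, zero_add]
  | cons d v ih =>
    obtain ⟨k, y⟩ := d
    rw [mulVV, ih, lc_mulRt, lc_cons, mul_add, mul_smul_comm, smul_add, smul_smul]
    abel

theorem lc_coef (k : ℕ) (u : Vec) :
    toF F (lc (e F) u) k = ((coef k u : ℤ) : F) := by
  induction u with
  | nil => rw [lc_nil, coef, Int.cast_zero, map_zero, Finsupp.zero_apply]
  | cons d u ih =>
    obtain ⟨i, x⟩ := d
    rw [lc_cons, coef, map_add, map_zsmul, Finsupp.add_apply, ih]
    have h1 : toF F (e F i) = Finsupp.single i 1 := rfl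
    rw [h1, Finsupp.smul_apply]
    cases h : Nat.beq i k
    · have h2 : i ≠ k := Nat.ne_of_beq_eq_false h
      rw [cond_false, Finsupp.single_eq_of_ne h2.symm, smul_zero, zero_add]
    · have h2 : i = k := Nat.eq_of_beq_eq_true h
      subst h2
      rw [cond_true, Finsupp.single_eq_same, Int.cast_add, zsmul_eq_mul, mul_one]

end H77.Alt
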